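import Pool.Agent.Lib.MP_6b187a_gt.Dist

/-!
# Cutting the corner at the origin
-/

set_option autoImplicit false

namespace Pool.Agent.Lib.MP_6b187a_gt

open MeasureTheory Set Filter Topology
open scoped ENNReal NNReal

noncomputable section

namespace RMetric

variable {n : ℕ} {M : RMetric n}

theorem Normal.smul_ne (hN : M.Normal) {t : ℝ} (ht : t ≠ 0) (v : EuclideanSpace ℝ (Fin n)) :
    M.g (t • v) v = v := by
  have h := hN (t • v)
  rw [map_smul] at h
  exact smul_right_injective _ ht h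

theorem Normal.zero (hN : M.Normal) (v : EuclideanSpace ℝ (Fin n)) : M.g 0 v = v := by
  have h1 : Tendsto (fun t : ℝ => M.g (t • v) v) (𝓝[≠] 0) (𝓝 (M.g 0 v)) := by
    have h2 : Continuous fun t : ℝ => M.g (t • v) v := by
      have h3 : Continuous fun t : ℝ => M.g (t • v) := M.continuous_g.comp (by fun_prop)
      exact h3.clm_apply continuous_const
    have h3 := h2.tendsto 0
    simp only [zero_smul] at h3
    exact h3.mono_left nhdsWithin_le_nhds
  have h2 : Tendsto (fun t : ℝ => M.g (t • v) v) (𝓝[≠] 0) (𝓝 v) := by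
    refine tendsto_const_nhds.congr' ?_
    filter_upwards [self_mem_nhdsWithin] with t ht
    exact (hN.smul_ne ht v).symm
  exact tendsto_nhds_unique h1 h2

theorem Normal.smul (hN : M.Normal) (t : ℝ) (v : EuclideanSpace ℝ (Fin n)) :
    M.g (t • v) v = v := by
  by_cases ht : t = 0
  · simp [ht, hN.zero]
  · exact hN.smul_ne ht v

/-- The derivative of the metric at the origin is zero. -/
theorem Normal.fderiv_zero (hN : M.Normal) : fderiv ℝ M.g 0 = 0 := by
  have hd : HasFDerivAt M.g (fderiv ℝ M.g 0) 0 :=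
    (M.smooth.differentiable two_ne_zero 0).hasFDerivAt
  set D := fderiv ℝ M.g 0 with hD
  have hline : ∀ x : EuclideanSpace ℝ (Fin n), HasDerivAt (fun t : ℝ => M.g (t • x)) (D x) 0 := by
    intro x
    have h1 : HasDerivAt (fun t : ℝ => t • x) x 0 := by
      simpa using (hasDerivAt_id (0 : ℝ)).smul_const x
    have h2 : HasFDerivAt M.g D ((0 : ℝ) • x) := by simpa using hd
    exact h2.comp_hasDerivAt 0 h1
  have hval : ∀ x y : EuclideanSpace ℝ (Fin n), HasDerivAt (fun t : ℝ => M.g (t • x) y) (D x y) 0 := by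
    intro x y
    exact (ContinuousLinearMap.apply ℝ _ y).hasFDerivAt.comp_hasDerivAt 0 (hline x)
  have hxx : ∀ x, D x x = 0 := by
    intro x
    have h1 := hval x x
    have h2 : (fun t : ℝ => M.g (t • x) x) = fun _ => x := funext fun t => hN.smul t x
    rw [h2] at h1
    exact h1.unique (hasDerivAt_const _ _)
  have hanti : ∀ x y, D x y = -D y x := by
    intro x y
    have h1 := hxx (x + y)
    simp only [map_add, add_apply, hxx, zero_add, add_zero] at h1
    exact eq_neg_of_add_eq_zero_right h1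
  have hsym : ∀ x y z, inner ℝ (D x y) z = inner ℝ y (D x z) := by
    intro x y z
    have h1 : HasDerivAt (fun t : ℝ => inner ℝ (M.g (t • x) y) z) (inner ℝ (D x y) z) 0 := by
      simpa using (hval x y).inner ℝ (hasDerivAt_const (0 : ℝ) z)
    have h2 : HasDerivAt (fun t : ℝ => inner ℝ y (M.g (t • x) z)) (inner ℝ y (D x z)) 0 := by
      simpa using (hasDerivAt_const (0 : ℝ) y).inner ℝ (hval x z)
    have h3 : (fun t : ℝ => inner ℝ (M.g (t • x) y) z) =
        fun t : ℝ => inner ℝ y (M.g (t • x) z) := funext fun t => M.symm _ _ _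
    rw [h3] at h1
    exact h1.unique h2
  ext1 x
  ext1 y
  rw [zero_apply, zero_apply]
  refine ext_inner_right ℝ fun z => ?_
  rw [inner_zero_left]
  have e1 : inner ℝ (D x y) z = -inner ℝ (D y x) z := by rw [hanti x y, inner_neg_left]
  have e2 : inner ℝ (D y x) z = inner ℝ (D y z) x := by rw [hsym y x z, real_inner_comm]
  have e3 : inner ℝ (D y z) x = -inner ℝ (D z y) x := by rw [hanti y z, inner_neg_left]
  have e4 : inner ℝ (D z y) x = inner ℝ (D z x) y := by rw [hsym z y x, real_inner_comm]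
  have e5 : inner ℝ (D z x) y = -inner ℝ (D x z) y := by rw [hanti z x, inner_neg_left]
  have e6 : inner ℝ (D x z) y = inner ℝ (D x y) z := by rw [hsym x z y, real_inner_comm]
  linarith

theorem Normal.exists_norm_le (hN : M.Normal) : ∃ κ, 0 ≤ κ ∧
    ∀ x : EuclideanSpace ℝ (Fin n), ‖x‖ ≤ 1 → ‖M.g x - M.g 0‖ ≤ κ * ‖x‖ ^ 2 := by
  have h1 : ContDiff ℝ 1 (fderiv ℝ M.g) := M.smooth.fderiv_right (by norm_num)
  obtain ⟨κ, hκ⟩ := (isCompact_closedBall (0 : EuclideanSpace ℝ (Fin n)) 1).exists_bound_of_continuousOn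
    (h1.continuous_fderiv one_ne_zero).continuousOn
  have hκ0 : 0 ≤ κ := (norm_nonneg _).trans (hκ 0 (by simp))
  refine ⟨κ, hκ0, fun x hx => ?_⟩
  have h2 : ∀ y ∈ Metric.closedBall (0 : EuclideanSpace ℝ (Fin n)) 1,
      ‖fderiv ℝ M.g y‖ ≤ κ * ‖y‖ := by
    intro y hy
    have h3 := (convex_closedBall (0 : EuclideanSpace ℝ (Fin n)) 1).norm_image_sub_le_of_norm_fderiv_le
      (𝕜 := ℝ) (f := fderiv ℝ M.g) (C := κ) (fun z _ => h1.differentiable one_ne_zero z) hκ
      (Metric.mem_closedBall_self zero_le_one) hy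
    have h4 : fderiv ℝ M.g y - fderiv ℝ M.g 0 = fderiv ℝ M.g y := by
      rw [hN.fderiv_zero]; exact sub_zero (fderiv ℝ M.g y)
    rw [h4, sub_zero] at h3
    exact h3
  have h3 := (convex_closedBall (0 : EuclideanSpace ℝ (Fin n)) ‖x‖).norm_image_sub_le_of_norm_fderiv_le
    (𝕜 := ℝ) (f := M.g) (C := κ * ‖x‖) (x := 0) (y := x)
    (fun z _ => M.smooth.differentiable two_ne_zero z) (fun z hz => ?_)
    (Metric.mem_closedBall_self (norm_nonneg x)) (by simp)
  · simpa [sq, mul_assoc] using h3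
  · have hz' : ‖z‖ ≤ ‖x‖ := by simpa using hz
    refine (h2 z (by simpa using hz'.trans hx)).trans ?_
    gcongr

theorem Normal.exists_inner_le (hN : M.Normal) : ∃ κ, 0 ≤ κ ∧
    ∀ x : EuclideanSpace ℝ (Fin n), ‖x‖ ≤ 1 → ∀ a : EuclideanSpace ℝ (Fin n),
      inner ℝ (M.g x a) a ≤ ‖a‖ ^ 2 + κ * (‖x‖ ^ 2 * ‖a‖ ^ 2 - inner ℝ x a ^ 2) := by
  obtain ⟨κ, hκ0, hκ⟩ := hN.exists_norm_le
  refine ⟨κ, hκ0, fun x hx a => ?_⟩
  by_cases hx0 : x = 0
  · subst hx0
    rw [hN.zero, real_inner_self_eq_norm_sq]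
    simp
  have hxn : ‖x‖ ^ 2 ≠ 0 := by positivity
  set α : ℝ := inner ℝ x a / ‖x‖ ^ 2 with hα
  set b := a - α • x with hb
  have hab : a = α • x + b := by rw [hb]; abel
  have hxb : inner ℝ x b = 0 := by
    rw [hb, inner_sub_right, inner_smul_right, real_inner_self_eq_norm_sq, hα]
    field_simp
    ring
  have hbn : ‖b‖ ^ 2 = ‖a‖ ^ 2 - inner ℝ x a ^ 2 / ‖x‖ ^ 2 := by
    have h1 : ‖b‖ ^ 2 = inner ℝ b b := (real_inner_self_eq_norm_sq b).symm
    have h2 : inner ℝ b b = inner ℝ a b := by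
      conv_rhs => rw [hab]
      rw [inner_add_left, inner_smul_left, hxb]
      simp
    rw [h1, h2, hb, inner_sub_right, inner_smul_right, real_inner_self_eq_norm_sq,
      real_inner_comm, hα]
    field_simp
  have hgx : M.g x x = x := hN x
  have h3 : inner ℝ (M.g x a) a = α ^ 2 * ‖x‖ ^ 2 + inner ℝ (M.g x b) b := by
    have h4 : inner ℝ (M.g x b) x = 0 := by
      rw [M.symm, hgx, real_inner_comm, hxb]
    conv_lhs => rw [hab]
    rw [map_add, map_smul, hgx]
    simp only [inner_add_left, inner_add_right, inner_smul_left, inner_smul_right, hxb, h4,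
      real_inner_self_eq_norm_sq]
    simp
    ring
  have h4 : inner ℝ (M.g x b) b ≤ ‖b‖ ^ 2 + κ * ‖x‖ ^ 2 * ‖b‖ ^ 2 := by
    have h5 : inner ℝ (M.g x b) b = ‖b‖ ^ 2 + inner ℝ ((M.g x - M.g 0) b) b := by
      rw [sub_apply, hN.zero, inner_sub_left, real_inner_self_eq_norm_sq]
      ring
    rw [h5]
    gcongr
    calc inner ℝ ((M.g x - M.g 0) b) b ≤ ‖(M.g x - M.g 0) b‖ * ‖b‖ := real_inner_le_norm _ _
      _ ≤ ‖M.g x - M.g 0‖ * ‖b‖ * ‖b‖ := by gcongr; exact (M.g x - M.g 0).le_opNorm b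
      _ ≤ κ * ‖x‖ ^ 2 * ‖b‖ * ‖b‖ := by gcongr; exact hκ x hx
      _ = κ * ‖x‖ ^ 2 * ‖b‖ ^ 2 := by ring
  rw [h3]
  have h5 : α ^ 2 * ‖x‖ ^ 2 + ‖b‖ ^ 2 = ‖a‖ ^ 2 := by
    rw [hbn, hα]
    field_simp
    ring
  have h6 : κ * ‖x‖ ^ 2 * ‖b‖ ^ 2 = κ * (‖x‖ ^ 2 * ‖a‖ ^ 2 - inner ℝ x a ^ 2) := by
    rw [hbn]
    field_simp
  linarith

theorem speed_line (hN : M.Normal) {v : EuclideanSpace ℝ (Fin n)} (hv : ‖v‖ = 1) (t : ℝ) :
    M.speed (fun t : ℝ => t • v) t = 1 := by
  have h : HasDerivAt (fun t : ℝ => t • v) v t := by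
    simpa using (hasDerivAt_id t).smul_const v
  unfold speed
  rw [h.deriv, hN.smul, real_inner_self_eq_norm_sq, hv]
  simp

theorem dist_line_le (hN : M.Normal) {v : EuclideanSpace ℝ (Fin n)} (hv : ‖v‖ = 1) {s t : ℝ}
    (hst : s ≤ t) : M.dist (s • v) (t • v) ≤ t - s := by
  have h := M.dist_le_integral (c := fun t : ℝ => t • v) (by fun_prop) hst
  simpa only [speed_line hN hv, intervalIntegral.integral_const, smul_eq_mul, mul_one] using h

theorem dist_line_le_abs (hN : M.Normal) {v : EuclideanSpace ℝ (Fin n)} (hv : ‖v‖ = 1) (s t : ℝ) :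
    M.dist (s • v) (t • v) ≤ |t - s| := by
  rcases le_total s t with h | h
  · rw [abs_of_nonneg (sub_nonneg.2 h)]
    exact dist_line_le hN hv h
  · rw [abs_of_nonpos (sub_nonpos.2 h), M.dist_comm, neg_sub]
    exact dist_line_le hN hv h

/-- Cutting the corner. -/
theorem Normal.exists_corner (hN : M.Normal) : ∃ δ, 0 < δ ∧
    ∀ v w : EuclideanSpace ℝ (Fin n), ‖v‖ = 1 → ‖w‖ = 1 →
      M.dist (-v) w ≤ 2 - δ * (1 - inner ℝ v w) := by
  obtain ⟨κ, hκ0, hκ⟩ := hN.exists_inner_le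
  obtain ⟨ρ, hρ0, hρ1, hρ2⟩ : ∃ ρ : ℝ, 0 < ρ ∧ ρ ≤ 1 ∧ κ * ρ ^ 2 ≤ 1 / 2 := by
    refine ⟨1 / (2 * κ + 1), by positivity, ?_, ?_⟩
    · rw [div_le_one (by positivity)]; linarith
    · rw [div_pow, one_pow, mul_one_div, div_le_div_iff₀ (by positivity) (by positivity)]
      nlinarith
  refine ⟨ρ / 4, by positivity, fun v w hv hw => ?_⟩
  set m : ℝ := inner ℝ v w with hm
  have hm1 : m ≤ 1 := by
    have := real_inner_le_norm v w
    rw [hv, hw] at this
    linarith
  have hm2 : -1 ≤ m := by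
    have := neg_le_of_abs_le (abs_real_inner_le_norm v w)
    rw [hv, hw] at this
    linarith
  have h1 : M.dist (-v) (-(ρ • v)) ≤ 1 - ρ := by
    have h := dist_line_le hN (v := v) hv (s := -1) (t := -ρ) (by linarith)
    have e1 : (-1 : ℝ) • v = -v := by simp
    have e2 : (-ρ) • v = -(ρ • v) := by simp
    rw [e1, e2] at h
    linarith
  have h3 : M.dist (ρ • w) w ≤ 1 - ρ := by
    have h := dist_line_le hN (v := w) hw (s := ρ) (t := 1) hρ1
    simpa using h
  have h2 : M.dist (-(ρ • v)) (ρ • w) ≤ ρ * (2 - (1 - m) / 4) := by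
    have h := M.dist_le_integral (contDiff_segment (-(ρ • v)) (ρ • w)) zero_le_one
    have e0 : -(ρ • v) + (0 : ℝ) • (ρ • w - -(ρ • v)) = -(ρ • v) := by simp
    have e1 : -(ρ • v) + (1 : ℝ) • (ρ • w - -(ρ • v)) = ρ • w := by simp
    rw [e0, e1] at h
    refine h.trans ?_
    set a := ρ • w - -(ρ • v) with ha
    have ha' : a = ρ • (v + w) := by rw [ha, smul_add]; abel
    have han : ‖a‖ ^ 2 = ρ ^ 2 * (2 + 2 * m) := by
      rw [ha', norm_smul, mul_pow, norm_add_sq_real, hv, hw, ← hm, Real.norm_of_nonneg hρ0.le]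
      ring
    have hxa : inner ℝ (-(ρ • v)) a = -(ρ ^ 2 * (1 + m)) := by
      rw [ha', inner_neg_left, inner_smul_left, inner_smul_right, inner_add_right,
        real_inner_self_eq_norm_sq, hv, ← hm]
      simp
      ring
    have hxn : ‖-(ρ • v)‖ ^ 2 = ρ ^ 2 := by
      rw [norm_neg, norm_smul, hv, Real.norm_of_nonneg hρ0.le, mul_one]
    have hb : ∀ t ∈ Icc (0 : ℝ) 1, M.speed (fun t : ℝ => -(ρ • v) + t • a) t ≤
        ρ * (2 - (1 - m) / 4) := by
      intro t ht
      have e := M.speed_segment (-(ρ • v)) (ρ • w) t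
      rw [← ha] at e
      rw [e]
      refine Real.sqrt_le_iff.2 ⟨?_, ?_⟩
      · have : 0 ≤ 2 - (1 - m) / 4 := by linarith
        positivity
      have hc : ‖-(ρ • v) + t • a‖ ≤ 1 := by
        have h4 : -(ρ • v) + t • a = (1 - t) • (-(ρ • v)) + t • (ρ • w) := by
          rw [ha, smul_sub, sub_smul, one_smul]; abel
        rw [h4]
        calc ‖(1 - t) • (-(ρ • v)) + t • (ρ • w)‖
            ≤ ‖(1 - t) • (-(ρ • v))‖ + ‖t • (ρ • w)‖ := norm_add_le _ _
          _ = (1 - t) * ρ + t * ρ := by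
              rw [norm_smul, norm_smul, norm_neg, norm_smul, norm_smul, hv, hw,
                Real.norm_of_nonneg (by linarith [ht.2]), Real.norm_of_nonneg ht.1,
                Real.norm_of_nonneg hρ0.le]
              ring
          _ = ρ := by ring
          _ ≤ 1 := hρ1
      have h5 := hκ _ hc a
      have h6 : ‖-(ρ • v) + t • a‖ ^ 2 * ‖a‖ ^ 2 - inner ℝ (-(ρ • v) + t • a) a ^ 2 =
          ρ ^ 4 * ((1 + m) * (1 - m)) := by
        rw [norm_add_sq_real, inner_add_left, real_inner_smul_left, real_inner_smul_right,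
          real_inner_self_eq_norm_sq, norm_smul, mul_pow, Real.norm_eq_abs, sq_abs, hxa, hxn, han]
        ring
      rw [h6, han] at h5
      refine h5.trans ?_
      have h7 : κ * (ρ ^ 4 * ((1 + m) * (1 - m))) ≤ ρ ^ 2 * (1 - m) := by
        have h8 : κ * (ρ ^ 4 * ((1 + m) * (1 - m))) =
            (κ * ρ ^ 2) * (1 + m) * (ρ ^ 2 * (1 - m)) := by ring
        rw [h8]
        have h9 : (κ * ρ ^ 2) * (1 + m) ≤ 1 := by
          calc (κ * ρ ^ 2) * (1 + m) ≤ (1 / 2) * (1 + m) := by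
                gcongr
                linarith
            _ ≤ 1 := by linarith
        have h10 : 0 ≤ ρ ^ 2 * (1 - m) := by
          have : 0 ≤ 1 - m := by linarith
          positivity
        calc (κ * ρ ^ 2) * (1 + m) * (ρ ^ 2 * (1 - m)) ≤ 1 * (ρ ^ 2 * (1 - m)) := by gcongr
          _ = _ := one_mul _
      have h8 : (ρ * (2 - (1 - m) / 4)) ^ 2 = ρ ^ 2 * (4 - (1 - m) + (1 - m) ^ 2 / 16) := by ring
      rw [h8]
      have h9 : 0 ≤ ρ ^ 2 * ((1 - m) ^ 2 / 16) := by positivity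
      nlinarith
    have h5 : IntervalIntegrable (M.speed (fun t : ℝ => -(ρ • v) + t • a)) volume 0 1 := by
      refine Continuous.intervalIntegrable ?_ 0 1
      have : M.speed (fun t : ℝ => -(ρ • v) + t • a) = fun t =>
          √(inner ℝ (M.g (-(ρ • v) + t • a) a) a) := funext fun t => by
        have e := M.speed_segment (-(ρ • v)) (ρ • w) t
        rw [← ha] at e
        exact e
      rw [this]
      have h6 : Continuous fun t : ℝ => (-(ρ • v) + t • a, a) := by fun_prop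
      exact M.continuous_form.comp h6
    have h6 := intervalIntegral.integral_mono_on (zero_le_one (α := ℝ)) h5
      (intervalIntegrable_const (c := ρ * (2 - (1 - m) / 4))) hb
    simpa using h6
  have h4 := M.dist_triangle (-v) (-(ρ • v)) w
  have h5 := M.dist_triangle (-(ρ • v)) (ρ • w) w
  linarith

end RMetric

end

end Pool.Agent.Lib.MP_6b187a_gt
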