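import Mathlib

/-!
# Geodesics from a point of a manifold without conjugate points: the definitions

A complete simply connected Riemannian manifold without conjugate points is, by means of the
exponential map of a point `p`, the space `ℝⁿ` with a metric for which the lines through the origin
are the geodesics through `p`; by the Gauss lemma this means `g x x = x` for every `x`.
-/

set_option autoImplicit false

namespace Pool.Agent.Lib.MP_6b187a_gt

open MeasureTheory
open scoped ENNReal NNReal

noncomputable section

/-- A Riemannian metric of class `C²` on `ℝⁿ`: the scalar product of the tangent vectors `v` and `w`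
at the point `x` is `⟪g x v, w⟫`. -/
structure RMetric (n : ℕ) where
  g : EuclideanSpace ℝ (Fin n) → EuclideanSpace ℝ (Fin n) →L[ℝ] EuclideanSpace ℝ (Fin n)
  smooth : ContDiff ℝ 2 g
  symm : ∀ x v w, inner ℝ (g x v) w = inner ℝ v (g x w)
  pos : ∀ x v, v ≠ 0 → 0 < inner ℝ (g x v) v

namespace RMetric

variable {n : ℕ} (M : RMetric n)

/-- The speed at the time `t` of the curve `γ`. -/
def speed (γ : ℝ → EuclideanSpace ℝ (Fin n)) (t : ℝ) : ℝ :=
  √(inner ℝ (M.g (γ t) (deriv γ t)) (deriv γ t))

/-- The length of the curve `γ` on `[0, L]`. -/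
def length (γ : ℝ → EuclideanSpace ℝ (Fin n)) (L : ℝ) : ℝ :=
  ∫ t in (0 : ℝ)..L, M.speed γ t

/-- The Riemannian distance: the infimum of the lengths of the Lipschitz curves from `x` to `y`. -/
def dist (x y : EuclideanSpace ℝ (Fin n)) : ℝ :=
  sInf {l : ℝ | ∃ (L : ℝ) (γ : ℝ → EuclideanSpace ℝ (Fin n)), 0 ≤ L ∧
    (∃ K : ℝ≥0, LipschitzWith K γ) ∧ γ 0 = x ∧ γ L = y ∧ l = M.length γ L}

/-- The Riemannian volume of `A`. -/
def vol (A : Set (EuclideanSpace ℝ (Fin n))) : ℝ≥0∞ :=
  ∫⁻ x in A, ENNReal.ofReal √((M.g x).det)

/-- The coordinates are normal coordinates at the origin: the lines through the origin are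
geodesics of unit speed, orthogonal to the spheres around the origin (Gauss lemma). -/
def Normal : Prop := ∀ x, M.g x x = x

/-- The geodesics through the origin are minimizing: the distance of `-s v` and `t v` is `s + t`. -/
def Minimizing : Prop :=
  ∀ v : EuclideanSpace ℝ (Fin n), ‖v‖ = 1 → ∀ s t : ℝ, 0 ≤ s → 0 ≤ t →
    M.dist (-(s • v)) (t • v) = s + t

/-- The balls of each radius have bounded volume. -/
def BoundedBalls : Prop := ∀ R : ℝ, ∃ V : ℝ≥0, ∀ x, M.vol {y | M.dist x y ≤ R} ≤ V

end RMetric

/-- The directions at the origin: the unit sphere of `ℝⁿ`. -/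
def Dir (n : ℕ) : Type := Metric.sphere (0 : EuclideanSpace ℝ (Fin n)) 1

/-- The Borel sets of the sphere. -/
instance (n : ℕ) : MeasurableSpace (Dir n) := Subtype.instMeasurableSpace

/-- The surface measure of the unit sphere. -/
def dirs (n : ℕ) : Measure (Dir n) := (volume : Measure (EuclideanSpace ℝ (Fin n))).toSphere

/-- The geodesic of unit speed from the origin with the direction `v`. -/
def ray {n : ℕ} (v : Dir n) (t : ℝ) : EuclideanSpace ℝ (Fin n) := t • v.1

namespace RMetric

variable {n : ℕ} (M : RMetric n)

/-- The geodesics with the directions `u` and `v` are at distance at most `C` at some time in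
`[j, j + 1]`. -/
def Near (C : ℝ) (j : ℕ) (u v : Dir n) : Prop :=
  ∃ t ∈ Set.Icc (j : ℝ) (j + 1), M.dist (ray u t) (ray v t) ≤ C

end RMetric

end

end Pool.Agent.Lib.MP_6b187a_gt
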