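import Pool.Agent.Lib.MP_6b187a_gt.Var

/-!
# The determinant and the trace of a positive operator with a fixed vector
-/

set_option autoImplicit false

namespace Pool.Agent.Lib.MP_6b187a_gt

open MeasureTheory Set Filter Topology
open scoped ENNReal NNReal

noncomputable section

section AMGM

variable {E : Type*} [NormedAddCommGroup E] [InnerProductSpace ℝ E] [FiniteDimensional ℝ E]

theorem eigenvalues_nonneg {T : E →ₗ[ℝ] E} (hT : T.IsSymmetric) (hp : ∀ x, 0 ≤ inner ℝ (T x) x)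
    {n : ℕ} (hn : Module.finrank ℝ E = n) (i : Fin n) : 0 ≤ hT.eigenvalues hn i := by
  have h := hp (hT.eigenvectorBasis hn i)
  rw [hT.apply_eigenvectorBasis, real_inner_smul_left, real_inner_self_eq_norm_sq,
    OrthonormalBasis.norm_eq_one] at h
  simpa using h

/-- The inequality of the arithmetic and geometric means for the eigenvalues. -/
theorem det_le_pow {T : E →ₗ[ℝ] E} (hT : T.IsSymmetric) (hp : ∀ x, 0 ≤ inner ℝ (T x) x)
    {n : ℕ} (hn : Module.finrank ℝ E = n) (h0 : 0 < n) :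
    T.det ≤ (T.trace ℝ E / n) ^ n := by
  have h1 : T.det = ∏ i, hT.eigenvalues hn i := by
    have := hT.det_eq_prod_eigenvalues hn
    simpa using this
  have h2 : T.trace ℝ E = ∑ i, hT.eigenvalues hn i := by
    have := LinearMap.IsSymmetric.trace_eq_sum_eigenvalues hn hT
    simpa using this
  have h3 := Real.geom_mean_le_arith_mean_weighted Finset.univ (fun _ : Fin n => (1 / n : ℝ))
    (hT.eigenvalues hn) (fun _ _ => by positivity) (by simp; field_simp)
    fun i _ => eigenvalues_nonneg hT hp hn i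
  have hP : 0 ≤ ∏ i, hT.eigenvalues hn i :=
    Finset.prod_nonneg fun i _ => eigenvalues_nonneg hT hp hn i
  rw [Real.finsetProd_rpow _ _ (fun i _ => eigenvalues_nonneg hT hp hn i), ← Finset.mul_sum] at h3
  rw [h1, h2]
  calc ∏ i, hT.eigenvalues hn i = ((∏ i, hT.eigenvalues hn i) ^ (1 / n : ℝ)) ^ n := by
        rw [← Real.rpow_natCast, ← Real.rpow_mul hP, one_div, inv_mul_cancel₀ (by positivity),
          Real.rpow_one]
    _ ≤ ((1 / n : ℝ) * ∑ i, hT.eigenvalues hn i) ^ n := by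
        have := Real.rpow_nonneg hP (1 / n : ℝ)
        gcongr
    _ = _ := by rw [one_div_mul_eq_div]

theorem det_rpow_le {T : E →ₗ[ℝ] E} (hT : T.IsSymmetric) (hp : ∀ x, 0 ≤ inner ℝ (T x) x)
    {n : ℕ} (hn : Module.finrank ℝ E = n) (h2 : 2 ≤ n) {v : E} (hv : ‖v‖ = 1) (hTv : T v = v)
    (hD : 0 < T.det) :
    (n - 1) * T.det ^ (1 / (n - 1 : ℝ)) ≤ T.trace ℝ E - 1 := by
  have hn1 : (0 : ℝ) < n - 1 := by
    have : (2 : ℝ) ≤ n := by exact_mod_cast h2
    linarith
  set c : ℝ := T.det ^ (1 / (n - 1 : ℝ)) with hc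
  have hc0 : 0 < c := Real.rpow_pos_of_pos hD _
  have hcn : c ^ n = c * T.det := by
    have h3 : c ^ (n - 1) = T.det := by
      rw [hc, ← Real.rpow_natCast, ← Real.rpow_mul hD.le, Nat.cast_sub (by omega), Nat.cast_one,
        one_div_mul_cancel hn1.ne', Real.rpow_one]
    calc c ^ n = c ^ (n - 1 + 1) := by congr 1; omega
      _ = c * T.det := by rw [pow_succ, h3, mul_comm]
  let f : E →ₗ[ℝ] ℝ := (c - 1) • (innerSL ℝ v).toLinearMap
  have hf : ∀ x, f x = (c - 1) * inner ℝ v x := fun x => rfl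
  let T' : E →ₗ[ℝ] E := T ∘ₗ LinearMap.transvection f v
  have hT' : ∀ x, T' x = T x + ((c - 1) * inner ℝ v x) • v := by
    intro x
    show T (LinearMap.transvection f v x) = _
    rw [LinearMap.transvection.apply, map_add, map_smul, hTv, hf]
  have hsym : T'.IsSymmetric := by
    intro x y
    rw [hT', hT', inner_add_left, inner_add_right, hT x y, real_inner_smul_left,
      real_inner_smul_right, real_inner_comm v x]
    ring
  have hpos : ∀ x, 0 ≤ inner ℝ (T' x) x := by
    intro x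
    have h3 := hp (x - inner ℝ v x • v)
    have h4 : inner ℝ (T x) v = inner ℝ v x := by rw [hT x v, hTv, real_inner_comm]
    rw [map_sub, map_smul, hTv, inner_sub_left, inner_sub_right, inner_sub_right,
      real_inner_smul_left, real_inner_smul_left, real_inner_smul_right, real_inner_smul_right, h4,
      real_inner_self_eq_norm_sq, hv] at h3
    rw [hT', inner_add_left, real_inner_smul_left]
    have h5 : 0 ≤ c * inner ℝ v x ^ 2 := by positivity
    nlinarith
  have hdet : T'.det = c * T.det := by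
    show (T ∘ₗ LinearMap.transvection f v).det = _
    rw [LinearMap.det_comp, LinearMap.transvection.det, hf, real_inner_self_eq_norm_sq, hv]
    ring
  have htr : T'.trace ℝ E = T.trace ℝ E + (c - 1) := by
    let b := stdOrthonormalBasis ℝ E
    rw [LinearMap.trace_eq_sum_inner T' b, LinearMap.trace_eq_sum_inner T b]
    have h3 : ∀ i, inner ℝ (b i) (T' (b i)) = inner ℝ (b i) (T (b i)) +
        (c - 1) * inner ℝ (b i) v ^ 2 := by
      intro i
      rw [hT', inner_add_right, real_inner_smul_right, real_inner_comm v (b i)]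
      ring
    rw [Finset.sum_congr rfl fun i _ => h3 i, Finset.sum_add_distrib, ← Finset.mul_sum]
    congr 1
    have h4 := b.sum_sq_norm_inner_right v
    have h5 : ∑ i, inner ℝ (b i) v ^ 2 = 1 := by
      rw [hv] at h4
      simpa using h4
    rw [h5, mul_one]
  have h3 := det_le_pow hsym hpos hn (by omega)
  rw [hdet, ← hcn, htr] at h3
  have htr0 : 0 ≤ T'.trace ℝ E := by
    let b := stdOrthonormalBasis ℝ E
    rw [LinearMap.trace_eq_sum_inner T' b]
    refine Finset.sum_nonneg fun i _ => ?_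
    rw [real_inner_comm]
    exact hpos (b i)
  rw [htr] at htr0
  have h4 : c ≤ (T.trace ℝ E + (c - 1)) / n :=
    le_of_pow_le_pow_left₀ (by omega) (by positivity) h3
  rw [le_div_iff₀ (by positivity)] at h4
  linarith

end AMGM

namespace RMetric

variable {n : ℕ} (M : RMetric n)

theorem isUnit_g (x : EuclideanSpace ℝ (Fin n)) : IsUnit (M.g x) := by
  have hinj : Function.Injective (M.g x).toLinearMap := by
    rw [injective_iff_map_eq_zero]
    intro a ha
    by_contra h
    have := M.pos x a h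
    have h2 : M.g x a = 0 := ha
    rw [h2, inner_zero_left] at this
    exact lt_irrefl _ this
  let e := (LinearEquiv.ofInjectiveEndo (M.g x).toLinearMap hinj).toContinuousLinearEquiv
  exact ⟨ContinuousLinearEquiv.toUnit e, by ext1 y; rfl⟩

/-- The inverse of `g x`. -/
def K (x : EuclideanSpace ℝ (Fin n)) : EuclideanSpace ℝ (Fin n) →L[ℝ] EuclideanSpace ℝ (Fin n) :=
  Ring.inverse (M.g x)

theorem g_K (x a : EuclideanSpace ℝ (Fin n)) : M.g x (M.K x a) = a := by
  have h : M.g x * M.K x = 1 := Ring.mul_inverse_cancel _ (M.isUnit_g x)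
  exact congrArg (fun A : EuclideanSpace ℝ (Fin n) →L[ℝ] EuclideanSpace ℝ (Fin n) => A a) h

theorem K_g (x a : EuclideanSpace ℝ (Fin n)) : M.K x (M.g x a) = a := by
  have h : M.K x * M.g x = 1 := Ring.inverse_mul_cancel _ (M.isUnit_g x)
  exact congrArg (fun A : EuclideanSpace ℝ (Fin n) →L[ℝ] EuclideanSpace ℝ (Fin n) => A a) h

theorem continuous_K : Continuous M.K := by
  rw [continuous_iff_continuousAt]
  intro x
  obtain ⟨u, hu⟩ := M.isUnit_g x
  have h := NormedRing.inverse_continuousAt u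
  rw [hu] at h
  exact h.comp M.continuous_g.continuousAt

theorem K_symm (x a b : EuclideanSpace ℝ (Fin n)) : inner ℝ (M.K x a) b = inner ℝ a (M.K x b) := by
  have h := M.symm x (M.K x a) (M.K x b)
  rw [M.g_K, M.g_K] at h
  exact h.symm

theorem K_pos (x a : EuclideanSpace ℝ (Fin n)) : 0 ≤ inner ℝ (M.K x a) a := by
  have h := M.inner_nonneg x (M.K x a)
  rw [M.g_K, real_inner_comm] at h
  exact h

theorem K_det (x : EuclideanSpace ℝ (Fin n)) : (M.K x).det * (M.g x).det = 1 := by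
  have h : M.K x * M.g x = 1 := Ring.inverse_mul_cancel _ (M.isUnit_g x)
  have h2 : (M.K x).toLinearMap ∘ₗ (M.g x).toLinearMap = LinearMap.id := by
    ext1 a
    exact M.K_g x a
  have h3 := congrArg LinearMap.det h2
  rw [LinearMap.det_comp, LinearMap.det_id] at h3
  exact h3

theorem det_nonneg (x : EuclideanSpace ℝ (Fin n)) : 0 ≤ (M.g x).det := by
  have hs : (M.g x).toLinearMap.IsSymmetric := fun a b => M.symm x a b
  have h1 := hs.det_eq_prod_eigenvalues (finrank_euclideanSpace_fin (𝕜 := ℝ) (n := n))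
  show 0 ≤ (M.g x).toLinearMap.det
  rw [h1]
  refine Finset.prod_nonneg fun i _ => ?_
  exact eigenvalues_nonneg hs (fun a => M.inner_nonneg x a) _ i

theorem det_pos (x : EuclideanSpace ℝ (Fin n)) : 0 < (M.g x).det := by
  refine lt_of_le_of_ne (M.det_nonneg x) fun h => ?_
  have := M.K_det x
  rw [← h, mul_zero] at this
  exact zero_ne_one this

theorem K_det_eq (x : EuclideanSpace ℝ (Fin n)) : (M.K x).det = ((M.g x).det)⁻¹ :=
  eq_inv_of_mul_eq_one_left (M.K_det x)

theorem K_fix (hN : M.Normal) (s : ℝ) (v : EuclideanSpace ℝ (Fin n)) : M.K (s • v) v = v := by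
  have h := M.K_g (s • v) v
  rwa [hN.smul] at h

/-- The projection to the orthogonal complement of `v`. -/
def proj (v a : EuclideanSpace ℝ (Fin n)) : EuclideanSpace ℝ (Fin n) := a - inner ℝ v a • v

theorem inner_proj {v : EuclideanSpace ℝ (Fin n)} (hv : ‖v‖ = 1) (a : EuclideanSpace ℝ (Fin n)) :
    inner ℝ v (proj v a) = 0 := by
  rw [proj, inner_sub_right, real_inner_smul_right, real_inner_self_eq_norm_sq, hv]
  ring

theorem norm_proj {v : EuclideanSpace ℝ (Fin n)} (hv : ‖v‖ = 1) (a : EuclideanSpace ℝ (Fin n)) :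
    ‖proj v a‖ ^ 2 = ‖a‖ ^ 2 - inner ℝ a v ^ 2 := by
  rw [proj, norm_sub_sq_real, real_inner_smul_right, norm_smul, mul_pow, hv, Real.norm_eq_abs,
    sq_abs, real_inner_comm a v]
  ring

theorem K_proj (hN : M.Normal) (s : ℝ) {v : EuclideanSpace ℝ (Fin n)} (hv : ‖v‖ = 1)
    (a : EuclideanSpace ℝ (Fin n)) :
    inner ℝ (M.K (s • v) (proj v a)) (proj v a) = inner ℝ a (M.K (s • v) a) - inner ℝ a v ^ 2 := by
  have h4 : inner ℝ (M.K (s • v) a) v = inner ℝ v a := by
    rw [M.K_symm, M.K_fix hN, real_inner_comm]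
  rw [proj, map_sub, map_smul, M.K_fix hN, inner_sub_left, inner_sub_right, inner_sub_right,
    real_inner_smul_left, real_inner_smul_left, real_inner_smul_right, real_inner_smul_right, h4,
    real_inner_self_eq_norm_sq, hv, real_inner_comm a v, real_inner_comm (M.K (s • v) a) a]
  ring

theorem det_rpow_le_sum (hN : M.Normal) (hn : 2 ≤ n) (s : ℝ) {v : EuclideanSpace ℝ (Fin n)}
    (hv : ‖v‖ = 1) : (n - 1) * (M.g (s • v)).det ^ (-(1 / (n - 1 : ℝ))) ≤
      ∑ i, inner ℝ (M.K (s • v) (proj v (EuclideanSpace.basisFun (Fin n) ℝ i)))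
        (proj v (EuclideanSpace.basisFun (Fin n) ℝ i)) := by
  have h1 := det_rpow_le (T := (M.K (s • v)).toLinearMap) (fun a b => M.K_symm _ a b)
    (fun a => M.K_pos _ a) (finrank_euclideanSpace_fin (𝕜 := ℝ) (n := n)) hn hv
    (M.K_fix hN s v) (by
      show 0 < (M.K (s • v)).det
      rw [M.K_det_eq]
      exact inv_pos.2 (M.det_pos _))
  have h2 : (M.K (s • v)).toLinearMap.det = ((M.g (s • v)).det)⁻¹ := M.K_det_eq _
  rw [h2, Real.inv_rpow (M.det_nonneg _), ← Real.rpow_neg (M.det_nonneg _)] at h1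
  refine h1.trans (le_of_eq ?_)
  set b := EuclideanSpace.basisFun (Fin n) ℝ
  rw [LinearMap.trace_eq_sum_inner _ b]
  simp only [M.K_proj hN s hv]
  rw [Finset.sum_sub_distrib]
  congr 1
  have h4 := b.sum_sq_norm_inner_right v
  rw [hv] at h4
  simpa using h4.symm

/-- The bound for the integral of the inverse metric along a line. -/
theorem integral_K_le {M : RMetric n} (hN : M.Normal) (hm : M.Minimizing) {δ : ℝ} (hδ0 : 0 < δ)
    (hδ : ∀ v w : EuclideanSpace ℝ (Fin n), ‖v‖ = 1 → ‖w‖ = 1 →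
      M.dist (-v) w ≤ 2 - δ * (1 - inner ℝ v w))
    {v : EuclideanSpace ℝ (Fin n)} (hv : ‖v‖ = 1) {T : ℝ} (hT : 1 ≤ T)
    {ξ : EuclideanSpace ℝ (Fin n)} (hξ : inner ℝ v ξ = 0) :
    ∫ s in (1 : ℝ)..T, (s ^ 2)⁻¹ * inner ℝ (M.K (s • v) ξ) ξ ≤ ‖ξ‖ ^ 2 / δ := by
  set χ : ℝ → EuclideanSpace ℝ (Fin n) := fun s => ((max s 1) ^ 2)⁻¹ • M.K (s • v) ξ with hχdef
  have hχ : Continuous χ := by
    have h1 : Continuous fun s : ℝ => ((max s 1) ^ 2)⁻¹ := by
      refine Continuous.inv₀ (by fun_prop) fun s => ?_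
      have : 1 ≤ max s 1 := le_max_right _ _
      positivity
    have h2 : Continuous fun s : ℝ => M.K (s • v) ξ := by
      have h3 : Continuous fun s : ℝ => M.K (s • v) := M.continuous_K.comp (by fun_prop)
      exact h3.clm_apply continuous_const
    exact h1.smul h2
  have hχv : ∀ s, inner ℝ v (χ s) = 0 := by
    intro s
    rw [hχdef]
    simp only
    rw [real_inner_smul_right, ← M.K_symm, M.K_fix hN, hξ, mul_zero]
  have h1 := variation hN hm hδ hv hT hχ hχv
  set w := ∫ t in (1 : ℝ)..T, χ t with hw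
  have h2 : ∫ s in (1 : ℝ)..T, s ^ 2 * inner ℝ (M.g (s • v) (χ s)) (χ s) = inner ℝ ξ w := by
    have h3 : inner ℝ ξ w = ∫ s in (1 : ℝ)..T, inner ℝ ξ (χ s) := by
      have h := (innerSL ℝ ξ).intervalIntegral_comp_comm (μ := volume) (a := 1) (b := T)
        (hχ.intervalIntegrable _ _)
      simp only [innerSL_apply_apply] at h
      exact h.symm
    rw [h3]
    refine intervalIntegral.integral_congr fun s hs => ?_
    rw [uIcc_of_le hT] at hs
    have hs1 : max s 1 = s := max_eq_left hs.1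
    have hs0 : s ≠ 0 := by have := hs.1; positivity
    simp only [hχdef, hs1, map_smul, M.g_K, real_inner_smul_left, real_inner_smul_right]
    field_simp
  have h3 : ∫ s in (1 : ℝ)..T, (s ^ 2)⁻¹ * inner ℝ (M.K (s • v) ξ) ξ = inner ℝ ξ w := by
    have h3 : inner ℝ ξ w = ∫ s in (1 : ℝ)..T, inner ℝ ξ (χ s) := by
      have h := (innerSL ℝ ξ).intervalIntegral_comp_comm (μ := volume) (a := 1) (b := T)
        (hχ.intervalIntegrable _ _)
      simp only [innerSL_apply_apply] at h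
      exact h.symm
    rw [h3]
    refine intervalIntegral.integral_congr fun s hs => ?_
    rw [uIcc_of_le hT] at hs
    have hs1 : max s 1 = s := max_eq_left hs.1
    simp only [hχdef, hs1, real_inner_smul_right, real_inner_comm]
  rw [h3]
  rw [h2] at h1
  have h4 : inner ℝ ξ w ≤ ‖ξ‖ * ‖w‖ := real_inner_le_norm _ _
  rw [le_div_iff₀ hδ0]
  have h5 : 0 ≤ ‖w‖ := norm_nonneg _
  have h6 : 0 ≤ ‖ξ‖ := norm_nonneg _
  by_cases hw0 : ‖w‖ = 0
  · rw [hw0, mul_zero] at h4
    nlinarith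
  · have hwp : 0 < ‖w‖ := lt_of_le_of_ne h5 (Ne.symm hw0)
    have h7 : δ * ‖w‖ ≤ ‖ξ‖ := by
      have h8 : (δ * ‖w‖) * ‖w‖ ≤ ‖ξ‖ * ‖w‖ := by nlinarith
      exact le_of_mul_le_mul_right h8 hwp
    calc inner ℝ ξ w * δ ≤ (‖ξ‖ * ‖w‖) * δ := by gcongr
      _ = ‖ξ‖ * (δ * ‖w‖) := by ring
      _ ≤ ‖ξ‖ * ‖ξ‖ := by gcongr
      _ = ‖ξ‖ ^ 2 := by ring

theorem integral_det_le {M : RMetric n} (hN : M.Normal) (hm : M.Minimizing) (hn : 2 ≤ n) {δ : ℝ}
    (hδ0 : 0 < δ)
    (hδ : ∀ v w : EuclideanSpace ℝ (Fin n), ‖v‖ = 1 → ‖w‖ = 1 →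
      M.dist (-v) w ≤ 2 - δ * (1 - inner ℝ v w))
    {v : EuclideanSpace ℝ (Fin n)} (hv : ‖v‖ = 1) {T : ℝ} (hT : 1 ≤ T) :
    ∫ s in (1 : ℝ)..T, (s ^ 2)⁻¹ * (M.g (s • v)).det ^ (-(1 / (n - 1 : ℝ))) ≤ 1 / δ := by
  have hn1 : (0 : ℝ) < n - 1 := by
    have : (2 : ℝ) ≤ n := by exact_mod_cast hn
    linarith
  set b := EuclideanSpace.basisFun (Fin n) ℝ
  have hcs : ContinuousOn (fun s : ℝ => (s ^ 2)⁻¹) (Icc 1 T) := by
    refine ContinuousOn.inv₀ (by fun_prop) fun s hs => ?_
    have := hs.1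
    positivity
  have hdet : Continuous fun s : ℝ => (M.g (s • v)).det := by
    have h1 : Continuous fun s : ℝ => M.g (s • v) := M.continuous_g.comp (by fun_prop)
    exact ContinuousLinearMap.continuous_det.comp h1
  have hc1 : ContinuousOn (fun s : ℝ => (s ^ 2)⁻¹ * (M.g (s • v)).det ^ (-(1 / (n - 1 : ℝ))))
      (Icc 1 T) :=
    hcs.mul (hdet.continuousOn.rpow_const fun s _ => Or.inl (M.det_pos _).ne')
  have hc2 : ∀ i, ContinuousOn (fun s : ℝ => (s ^ 2)⁻¹ * inner ℝ (M.K (s • v) (proj v (b i)))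
      (proj v (b i))) (Icc 1 T) := by
    intro i
    refine hcs.mul (Continuous.continuousOn ?_)
    have h3 : Continuous fun s : ℝ => M.K (s • v) := M.continuous_K.comp (by fun_prop)
    exact (h3.clm_apply continuous_const).inner continuous_const
  have hi1 := hc1.intervalIntegrable_of_Icc (μ := volume) hT
  have hi2 := fun i => (hc2 i).intervalIntegrable_of_Icc (μ := volume) hT
  have h1 : (n - 1) * ∫ s in (1 : ℝ)..T, (s ^ 2)⁻¹ * (M.g (s • v)).det ^ (-(1 / (n - 1 : ℝ))) ≤
      ∑ i, ∫ s in (1 : ℝ)..T, (s ^ 2)⁻¹ * inner ℝ (M.K (s • v) (proj v (b i))) (proj v (b i)) := by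
    rw [← intervalIntegral.integral_const_mul, ← intervalIntegral.integral_finsetSum
      fun i _ => hi2 i]
    refine intervalIntegral.integral_mono_on hT (hi1.const_mul _)
      (by
        have h := IntervalIntegrable.sum Finset.univ fun i _ => hi2 i
        rwa [Finset.sum_fn] at h) fun s hs => ?_
    have h2 := M.det_rpow_le_sum hN hn s hv
    have h3 : 0 ≤ (s ^ 2)⁻¹ := by positivity
    rw [← Finset.mul_sum]
    calc (n - 1) * ((s ^ 2)⁻¹ * (M.g (s • v)).det ^ (-(1 / (n - 1 : ℝ))))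
        = (s ^ 2)⁻¹ * ((n - 1) * (M.g (s • v)).det ^ (-(1 / (n - 1 : ℝ)))) := by ring
      _ ≤ _ := by gcongr
  have h2 : ∑ i, ∫ s in (1 : ℝ)..T, (s ^ 2)⁻¹ * inner ℝ (M.K (s • v) (proj v (b i)))
      (proj v (b i)) ≤ ∑ i, ‖proj v (b i)‖ ^ 2 / δ :=
    Finset.sum_le_sum fun i _ => integral_K_le hN hm hδ0 hδ hv hT (inner_proj hv _)
  have h3 : ∑ i, ‖proj v (b i)‖ ^ 2 / δ = (n - 1) / δ := by
    rw [← Finset.sum_div]
    congr 1
    have h4 := b.sum_sq_norm_inner_right v
    rw [hv] at h4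
    simp only [norm_proj hv, OrthonormalBasis.norm_eq_one]
    rw [Finset.sum_sub_distrib]
    simp only [Real.norm_eq_abs, sq_abs] at h4
    rw [h4]
    simp
  have h4 := h1.trans (h2.trans (le_of_eq h3))
  have h5 : (n - 1 : ℝ) / δ = (n - 1) * (1 / δ) := by ring
  rw [h5] at h4
  exact le_of_mul_le_mul_left h4 hn1

end RMetric

end

end Pool.Agent.Lib.MP_6b187a_gt
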