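import Pool.Agent.Lib.MP_6b187a_gt.Defs

/-!
# The distance: triangle inequality, curves of class C¹, continuity
-/

set_option autoImplicit false

namespace Pool.Agent.Lib.MP_6b187a_gt

open MeasureTheory Set Filter Topology
open scoped ENNReal NNReal

noncomputable section

namespace RMetric

variable {n : ℕ} (M : RMetric n)

theorem continuous_g : Continuous M.g := M.smooth.continuous

theorem inner_nonneg (x v : EuclideanSpace ℝ (Fin n)) : 0 ≤ inner ℝ (M.g x v) v := by
  by_cases h : v = 0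
  · simp [h]
  · exact (M.pos x v h).le

theorem speed_nonneg (γ : ℝ → EuclideanSpace ℝ (Fin n)) (t : ℝ) : 0 ≤ M.speed γ t :=
  Real.sqrt_nonneg _

theorem length_nonneg (γ : ℝ → EuclideanSpace ℝ (Fin n)) {L : ℝ} (hL : 0 ≤ L) :
    0 ≤ M.length γ L :=
  intervalIntegral.integral_nonneg hL fun t _ => M.speed_nonneg γ t

theorem continuous_form :
    Continuous fun p : EuclideanSpace ℝ (Fin n) × EuclideanSpace ℝ (Fin n) =>
      √(inner ℝ (M.g p.1 p.2) p.2) := by
  have h : Continuous fun p : EuclideanSpace ℝ (Fin n) × EuclideanSpace ℝ (Fin n) =>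
      M.g p.1 p.2 :=
    isBoundedBilinearMap_apply.continuous.comp ((M.continuous_g.comp continuous_fst).prodMk
      continuous_snd)
  exact Real.continuous_sqrt.comp (h.inner continuous_snd)

theorem stronglyMeasurable_speed {γ : ℝ → EuclideanSpace ℝ (Fin n)} (hγ : Continuous γ) :
    StronglyMeasurable (M.speed γ) :=
  M.continuous_form.comp_stronglyMeasurable
    (hγ.stronglyMeasurable.prodMk (stronglyMeasurable_deriv γ))

theorem exists_speed_le {γ : ℝ → EuclideanSpace ℝ (Fin n)} {K : ℝ≥0} (hγ : LipschitzWith K γ)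
    (a b : ℝ) : ∃ C, ∀ t ∈ Icc a b, M.speed γ t ≤ C := by
  obtain ⟨C, hC⟩ := (isCompact_Icc (a := a) (b := b)).exists_bound_of_continuousOn
    (M.continuous_g.comp hγ.continuous).continuousOn
  refine ⟨√(C * K * K), fun t ht => Real.sqrt_le_sqrt ?_⟩
  have h1 : ‖deriv γ t‖ ≤ K := norm_deriv_le_of_lipschitz hγ
  have h2 : ‖M.g (γ t)‖ ≤ C := hC t ht
  have hC0 : 0 ≤ C := (norm_nonneg _).trans h2
  calc inner ℝ (M.g (γ t) (deriv γ t)) (deriv γ t)
      ≤ ‖M.g (γ t) (deriv γ t)‖ * ‖deriv γ t‖ := real_inner_le_norm _ _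
    _ ≤ (‖M.g (γ t)‖ * ‖deriv γ t‖) * ‖deriv γ t‖ := by
        gcongr; exact (M.g (γ t)).le_opNorm _
    _ ≤ C * K * K := by gcongr

theorem intervalIntegrable_speed {γ : ℝ → EuclideanSpace ℝ (Fin n)} {K : ℝ≥0}
    (hγ : LipschitzWith K γ) (a b : ℝ) : IntervalIntegrable (M.speed γ) volume a b := by
  obtain ⟨C, hC⟩ := M.exists_speed_le hγ (min a b) (max a b)
  rw [intervalIntegrable_iff]
  refine Measure.integrableOn_of_bounded (M := C) (by simp)
    (M.stronglyMeasurable_speed hγ.continuous).aestronglyMeasurable ?_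
  rw [ae_restrict_iff' measurableSet_uIoc]
  refine Eventually.of_forall fun t ht => ?_
  rw [Real.norm_of_nonneg (M.speed_nonneg γ t)]
  exact hC t (Ioc_subset_Icc_self ht)

/-- The set of the lengths of the curves from `x` to `y`. -/
def lengths (x y : EuclideanSpace ℝ (Fin n)) : Set ℝ :=
  {l : ℝ | ∃ (L : ℝ) (γ : ℝ → EuclideanSpace ℝ (Fin n)), 0 ≤ L ∧
    (∃ K : ℝ≥0, LipschitzWith K γ) ∧ γ 0 = x ∧ γ L = y ∧ l = M.length γ L}

theorem dist_def (x y : EuclideanSpace ℝ (Fin n)) : M.dist x y = sInf (M.lengths x y) := rfl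

theorem bddBelow_lengths (x y : EuclideanSpace ℝ (Fin n)) : BddBelow (M.lengths x y) := by
  refine ⟨0, ?_⟩
  rintro l ⟨L, γ, hL, -, -, -, rfl⟩
  exact M.length_nonneg γ hL

theorem dist_le_of_mem {x y : EuclideanSpace ℝ (Fin n)} {l : ℝ} (h : l ∈ M.lengths x y) :
    M.dist x y ≤ l := csInf_le (M.bddBelow_lengths x y) h

/-- A curve of class `C¹` on `[a, b]`. -/
theorem mem_lengths_of_contDiff {c : ℝ → EuclideanSpace ℝ (Fin n)} (hc : ContDiff ℝ 1 c) {a b : ℝ}
    (hab : a ≤ b) : (∫ t in a..b, M.speed c t) ∈ M.lengths (c a) (c b) := by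
  obtain ⟨C, hC⟩ := (isCompact_Icc (a := a) (b := b)).exists_bound_of_continuousOn
    (hc.continuous_deriv le_rfl).continuousOn
  have hC0 : 0 ≤ C := (norm_nonneg _).trans (hC a ⟨le_rfl, hab⟩)
  have hl : LipschitzOnWith ⟨C, hC0⟩ c (Icc a b) := by
    refine (convex_Icc a b).lipschitzOnWith_of_nnnorm_deriv_le
      (fun t _ => (hc.differentiable one_ne_zero) t) fun t ht => ?_
    exact hC t ht
  let cl : ℝ → ℝ := fun t => max a (min (a + t) b)
  have hcl : LipschitzWith 1 cl := by
    have h1 : LipschitzWith 1 fun t : ℝ => a + t := by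
      refine LipschitzWith.of_dist_le_mul fun s t => ?_
      simp [Real.dist_eq]
    exact (h1.min_const b).const_max a
  have hmem : ∀ t, cl t ∈ Icc a b := fun t => ⟨le_max_left _ _, max_le hab (min_le_right _ _)⟩
  refine ⟨b - a, fun t => c (cl t), sub_nonneg.2 hab, ⟨⟨C, hC0⟩ * 1, ?_⟩, ?_, ?_, ?_⟩
  · rw [← lipschitzOnWith_univ]
    exact hl.comp hcl.lipschitzOnWith fun t _ => hmem t
  · simp [cl, hab]
  · simp [cl, hab]
  · unfold length
    have h1 : ∫ t in (0 : ℝ)..(b - a), M.speed (fun t => c (cl t)) t =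
        ∫ t in (0 : ℝ)..(b - a), M.speed c (a + t) := by
      rw [intervalIntegral.integral_of_le (sub_nonneg.2 hab),
        intervalIntegral.integral_of_le (sub_nonneg.2 hab),
        MeasureTheory.integral_Ioc_eq_integral_Ioo, MeasureTheory.integral_Ioc_eq_integral_Ioo]
      refine setIntegral_congr_fun measurableSet_Ioo fun t ht => ?_
      have h2 : (fun t => c (cl t)) =ᶠ[𝓝 t] fun t => c (a + t) := by
        filter_upwards [isOpen_Ioo.mem_nhds ht] with s hs
        have h3 : cl s = a + s := by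
          have h4 : a + s ≤ b := by have := hs.2; linarith
          have h5 : a ≤ a + s := by have := hs.1; linarith
          simp [cl, h4, hs.1.le]
        rw [h3]
      have h3 : deriv (fun t => c (cl t)) t = deriv c (a + t) := by
        rw [h2.deriv_eq]
        exact deriv_comp_const_add c a t
      show √(inner ℝ (M.g (c (cl t)) (deriv (fun t => c (cl t)) t)) (deriv (fun t => c (cl t)) t)) =
        √(inner ℝ (M.g (c (a + t)) (deriv c (a + t))) (deriv c (a + t)))
      rw [h3, h2.eq_of_nhds]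
    rw [h1, intervalIntegral.integral_comp_add_left (fun t => M.speed c t) a]
    simp

theorem dist_le_integral {c : ℝ → EuclideanSpace ℝ (Fin n)} (hc : ContDiff ℝ 1 c) {a b : ℝ}
    (hab : a ≤ b) : M.dist (c a) (c b) ≤ ∫ t in a..b, M.speed c t :=
  M.dist_le_of_mem (M.mem_lengths_of_contDiff hc hab)

theorem speed_segment (x y : EuclideanSpace ℝ (Fin n)) (t : ℝ) :
    M.speed (fun t : ℝ => x + t • (y - x)) t =
      √(inner ℝ (M.g (x + t • (y - x)) (y - x)) (y - x)) := by
  have h : HasDerivAt (fun t : ℝ => x + t • (y - x)) (y - x) t := by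
    simpa using ((hasDerivAt_id t).smul_const (y - x)).const_add x
  unfold speed
  rw [h.deriv]

theorem contDiff_segment (x y : EuclideanSpace ℝ (Fin n)) :
    ContDiff ℝ 1 fun t : ℝ => x + t • (y - x) := by fun_prop

theorem lengths_nonempty (x y : EuclideanSpace ℝ (Fin n)) : (M.lengths x y).Nonempty := by
  have h := M.mem_lengths_of_contDiff (contDiff_segment x y) (zero_le_one)
  refine ⟨∫ t in (0 : ℝ)..1, M.speed (fun t : ℝ => x + t • (y - x)) t, ?_⟩
  simpa using h

theorem dist_nonneg (x y : EuclideanSpace ℝ (Fin n)) : 0 ≤ M.dist x y :=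
  le_csInf (M.lengths_nonempty x y) (by
    rintro l ⟨L, γ, hL, -, -, -, rfl⟩
    exact M.length_nonneg γ hL)

theorem lengths_symm {x y : EuclideanSpace ℝ (Fin n)} {l : ℝ} (h : l ∈ M.lengths x y) :
    l ∈ M.lengths y x := by
  obtain ⟨L, γ, hL, ⟨K, hK⟩, h0, h1, rfl⟩ := h
  refine ⟨L, fun t => γ (L - t), hL, ⟨K * 1, hK.comp ?_⟩, by simpa using h1, by simpa using h0, ?_⟩
  · refine LipschitzWith.of_dist_le_mul fun s t => ?_
    rw [Real.dist_eq, Real.dist_eq, abs_sub_comm s t]
    have : L - s - (L - t) = t - s := by ring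
    simp [this]
  · unfold length
    have h2 : ∀ t, M.speed (fun t => γ (L - t)) t = M.speed γ (L - t) := by
      intro t
      have h3 : deriv (fun t => γ (L - t)) t = -deriv γ (L - t) := deriv_comp_const_sub γ L t
      show √(inner ℝ (M.g (γ (L - t)) (deriv (fun t => γ (L - t)) t)) (deriv (fun t => γ (L - t)) t)) =
        √(inner ℝ (M.g (γ (L - t)) (deriv γ (L - t))) (deriv γ (L - t)))
      rw [h3]
      simp
    simp only [h2]
    rw [intervalIntegral.integral_comp_sub_left (fun t => M.speed γ t) L]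
    simp

theorem dist_comm (x y : EuclideanSpace ℝ (Fin n)) : M.dist x y = M.dist y x :=
  le_antisymm (le_csInf (M.lengths_nonempty y x) fun _ h => M.dist_le_of_mem (M.lengths_symm h))
    (le_csInf (M.lengths_nonempty x y) fun _ h => M.dist_le_of_mem (M.lengths_symm h))

theorem lengths_trans {x y z : EuclideanSpace ℝ (Fin n)} {l m : ℝ} (h : l ∈ M.lengths x y)
    (h' : m ∈ M.lengths y z) : l + m ∈ M.lengths x z := by
  obtain ⟨L, γ, hL, ⟨K, hK⟩, h0, h1, rfl⟩ := h
  obtain ⟨L', γ', hL', ⟨K', hK'⟩, h0', h1', rfl⟩ := h'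
  let η : ℝ → EuclideanSpace ℝ (Fin n) := fun t => γ (min t L) + γ' (max (t - L) 0) - y
  have hη : LipschitzWith (K * 1 + K' * 1 + 0) η := by
    have e1 : LipschitzWith (K * 1) fun t : ℝ => γ (min t L) :=
      hK.comp (LipschitzWith.id.min_const L)
    have e2 : LipschitzWith 1 fun t : ℝ => t - L := by
      refine LipschitzWith.of_dist_le_mul fun s t => ?_
      simp [Real.dist_eq]
    have e3 : LipschitzWith (K' * 1) fun t : ℝ => γ' (max (t - L) 0) :=
      hK'.comp (e2.max_const 0)
    exact (e1.add e3).sub (LipschitzWith.const y)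
  refine ⟨L + L', η, add_nonneg hL hL', ⟨_, hη⟩, ?_, ?_, ?_⟩
  · simp [η, hL, h0, h0']
  · simp [η, hL', h1, h1']
  · unfold length
    have hi := fun a b => M.intervalIntegrable_speed hη a b
    rw [← intervalIntegral.integral_add_adjacent_intervals (hi 0 L) (hi L (L + L'))]
    congr 1
    · rw [intervalIntegral.integral_of_le hL, intervalIntegral.integral_of_le hL,
        MeasureTheory.integral_Ioc_eq_integral_Ioo, MeasureTheory.integral_Ioc_eq_integral_Ioo]
      refine setIntegral_congr_fun measurableSet_Ioo fun t ht => ?_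
      have h2 : γ =ᶠ[𝓝 t] η := by
        filter_upwards [isOpen_Ioo.mem_nhds ht] with s hs
        have h3 : s - L ≤ 0 := by have := hs.2; linarith
        simp [η, hs.2.le, h3, h0']
      show √(inner ℝ (M.g (γ t) (deriv γ t)) (deriv γ t)) =
        √(inner ℝ (M.g (η t) (deriv η t)) (deriv η t))
      rw [h2.deriv_eq, h2.eq_of_nhds]
    · have h5 : ∫ t in (0 : ℝ)..L', M.speed γ' t = ∫ t in L..(L + L'), M.speed γ' (t - L) := by
        rw [intervalIntegral.integral_comp_sub_right (fun t => M.speed γ' t) L]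
        simp
      rw [h5, intervalIntegral.integral_of_le (by linarith),
        intervalIntegral.integral_of_le (by linarith),
        MeasureTheory.integral_Ioc_eq_integral_Ioo, MeasureTheory.integral_Ioc_eq_integral_Ioo]
      refine setIntegral_congr_fun measurableSet_Ioo fun t ht => ?_
      have h2 : (fun t => γ' (t - L)) =ᶠ[𝓝 t] η := by
        filter_upwards [isOpen_Ioo.mem_nhds ht] with s hs
        have h3 : 0 ≤ s - L := by have := hs.1; linarith
        simp [η, hs.1.le, h3, h1]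
      have h3 : deriv (fun t => γ' (t - L)) t = deriv γ' (t - L) := deriv_comp_sub_const γ' L t
      have h4 : deriv η t = deriv γ' (t - L) := by rw [← h2.deriv_eq, h3]
      have h6 : η t = γ' (t - L) := h2.eq_of_nhds.symm
      show √(inner ℝ (M.g (γ' (t - L)) (deriv γ' (t - L))) (deriv γ' (t - L))) =
        √(inner ℝ (M.g (η t) (deriv η t)) (deriv η t))
      rw [h4, h6]

theorem dist_triangle (x y z : EuclideanSpace ℝ (Fin n)) :
    M.dist x z ≤ M.dist x y + M.dist y z := by
  have h1 : ∀ l ∈ M.lengths x y, M.dist x z - l ≤ M.dist y z := fun l hl =>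
    le_csInf (M.lengths_nonempty y z) fun m hm => by
      have := M.dist_le_of_mem (M.lengths_trans hl hm)
      linarith
  have h2 : M.dist x z - M.dist y z ≤ M.dist x y :=
    le_csInf (M.lengths_nonempty x y) fun l hl => by
      have := h1 l hl
      linarith
  linarith

theorem dist_self (x : EuclideanSpace ℝ (Fin n)) : M.dist x x = 0 := by
  refine le_antisymm (M.dist_le_of_mem ⟨0, fun _ => x, le_rfl, ⟨0, LipschitzWith.const x⟩, rfl, rfl,
    ?_⟩) (M.dist_nonneg x x)
  simp [length]

/-- The distance is locally bounded by the Euclidean distance. -/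
theorem exists_dist_le (R : ℝ) : ∃ C, 0 ≤ C ∧ ∀ x y : EuclideanSpace ℝ (Fin n), ‖x‖ ≤ R → ‖y‖ ≤ R →
    M.dist x y ≤ C * ‖y - x‖ := by
  obtain ⟨C, hC⟩ := (isCompact_closedBall (0 : EuclideanSpace ℝ (Fin n)) R).exists_bound_of_continuousOn
    M.continuous_g.continuousOn
  refine ⟨√(max C 0), Real.sqrt_nonneg _, fun x y hx hy => ?_⟩
  have h := M.dist_le_integral (contDiff_segment x y) zero_le_one
  have h0 : x + (0 : ℝ) • (y - x) = x := by simp
  have h1 : x + (1 : ℝ) • (y - x) = y := by simp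
  rw [h0, h1] at h
  refine h.trans ?_
  have h2 : ∀ t ∈ Icc (0 : ℝ) 1, M.speed (fun t : ℝ => x + t • (y - x)) t ≤
      √(max C 0) * ‖y - x‖ := by
    intro t ht
    rw [M.speed_segment]
    have h3 : ‖x + t • (y - x)‖ ≤ R := by
      have h4 : x + t • (y - x) = (1 - t) • x + t • y := by
        rw [smul_sub, sub_smul, one_smul]; abel
      rw [h4]
      calc ‖(1 - t) • x + t • y‖ ≤ ‖(1 - t) • x‖ + ‖t • y‖ := norm_add_le _ _
        _ = (1 - t) * ‖x‖ + t * ‖y‖ := by
            rw [norm_smul, norm_smul, Real.norm_of_nonneg (by linarith [ht.2]),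
              Real.norm_of_nonneg ht.1]
        _ ≤ (1 - t) * R + t * R := by
            have := ht.1; have := ht.2
            gcongr
        _ = R := by ring
    have h4 : ‖M.g (x + t • (y - x))‖ ≤ C := hC _ (by simpa using h3)
    calc √(inner ℝ (M.g (x + t • (y - x)) (y - x)) (y - x))
        ≤ √(max C 0 * ‖y - x‖ ^ 2) := by
          refine Real.sqrt_le_sqrt ?_
          calc inner ℝ (M.g (x + t • (y - x)) (y - x)) (y - x)
              ≤ ‖M.g (x + t • (y - x)) (y - x)‖ * ‖y - x‖ := real_inner_le_norm _ _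
            _ ≤ (‖M.g (x + t • (y - x))‖ * ‖y - x‖) * ‖y - x‖ := by
                gcongr; exact (M.g _).le_opNorm _
            _ ≤ max C 0 * ‖y - x‖ ^ 2 := by
                rw [sq, ← mul_assoc]
                gcongr
                exact h4.trans (le_max_left _ _)
      _ = √(max C 0) * ‖y - x‖ := by
          rw [Real.sqrt_mul (le_max_right _ _), Real.sqrt_sq (norm_nonneg _)]
  have h5 : IntervalIntegrable (M.speed (fun t : ℝ => x + t • (y - x))) volume 0 1 := by
    refine Continuous.intervalIntegrable ?_ 0 1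
    have : M.speed (fun t : ℝ => x + t • (y - x)) = fun t =>
        √(inner ℝ (M.g (x + t • (y - x)) (y - x)) (y - x)) := funext fun t => M.speed_segment x y t
    rw [this]
    have h6 : Continuous fun t : ℝ => (x + t • (y - x), y - x) := by fun_prop
    exact M.continuous_form.comp h6
  have h6 := intervalIntegral.integral_mono_on (zero_le_one (α := ℝ)) h5
    (intervalIntegrable_const (c := √(max C 0) * ‖y - x‖)) h2
  simpa using h6

theorem continuous_dist : Continuous fun p : EuclideanSpace ℝ (Fin n) × EuclideanSpace ℝ (Fin n) =>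
    M.dist p.1 p.2 := by
  rw [continuous_iff_continuousAt]
  rintro ⟨x, y⟩
  obtain ⟨C, hC0, hC⟩ := M.exists_dist_le (max ‖x‖ ‖y‖ + 1)
  rw [ContinuousAt, tendsto_iff_dist_tendsto_zero]
  refine squeeze_zero' (g := fun p : EuclideanSpace ℝ (Fin n) × EuclideanSpace ℝ (Fin n) =>
    C * ‖p.1 - x‖ + C * ‖p.2 - y‖) (Eventually.of_forall fun _ => _root_.dist_nonneg) ?_ ?_
  · have hb : Metric.ball (x, y) 1 ∈ 𝓝 (x, y) := Metric.ball_mem_nhds _ one_pos
    filter_upwards [hb] with p hp
    have h1 : ‖p.1 - x‖ < 1 ∧ ‖p.2 - y‖ < 1 := by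
      rw [Metric.mem_ball, Prod.dist_eq, max_lt_iff, dist_eq_norm, dist_eq_norm] at hp
      exact hp
    have h2 : ‖p.1‖ ≤ max ‖x‖ ‖y‖ + 1 := by
      have : ‖p.1‖ ≤ ‖x‖ + ‖p.1 - x‖ := by
        have := norm_add_le x (p.1 - x); simpa using this
      linarith [le_max_left ‖x‖ ‖y‖]
    have h3 : ‖p.2‖ ≤ max ‖x‖ ‖y‖ + 1 := by
      have : ‖p.2‖ ≤ ‖y‖ + ‖p.2 - y‖ := by
        have := norm_add_le y (p.2 - y); simpa using this
      linarith [le_max_right ‖x‖ ‖y‖]
    have h4 : ‖x‖ ≤ max ‖x‖ ‖y‖ + 1 := by linarith [le_max_left ‖x‖ ‖y‖]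
    have h5 : ‖y‖ ≤ max ‖x‖ ‖y‖ + 1 := by linarith [le_max_right ‖x‖ ‖y‖]
    have a1 := hC x p.1 h4 h2
    have a2 := hC y p.2 h5 h3
    have b1 := M.dist_triangle p.1 x p.2
    have b2 := M.dist_triangle x y p.2
    have b3 := M.dist_triangle x p.1 y
    have b4 := M.dist_triangle p.1 p.2 y
    have c1 := M.dist_comm p.1 x
    have c2 := M.dist_comm p.2 y
    rw [Real.dist_eq, abs_le]
    constructor <;> linarith
  · have : Continuous fun p : EuclideanSpace ℝ (Fin n) × EuclideanSpace ℝ (Fin n) =>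
        C * ‖p.1 - x‖ + C * ‖p.2 - y‖ := by fun_prop
    have h := this.tendsto (x, y)
    simpa using h

end RMetric

end

end Pool.Agent.Lib.MP_6b187a_gt
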