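import Mathlib

/-!
# Polar coordinates and the measure theory of pairs of directions
-/

set_option autoImplicit false

namespace Pool.Agent.Lib.MP_6b187a_gt

open MeasureTheory Set Filter Topology Metric
open scoped ENNReal NNReal

noncomputable section

/-- Integration in polar coordinates. -/
theorem lintegral_polar {E : Type*} [NormedAddCommGroup E] [NormedSpace ℝ E]
    [FiniteDimensional ℝ E] [MeasurableSpace E] [BorelSpace E] [Nontrivial E] (μ : Measure E)
    [μ.IsAddHaarMeasure] {F : E → ℝ≥0∞} (hF : Measurable F) :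
    ∫⁻ x, F x ∂μ = ∫⁻ v : sphere (0 : E) 1, (∫⁻ s in Ioi (0 : ℝ),
      ENNReal.ofReal (s ^ (Module.finrank ℝ E - 1)) * F (s • (v : E))) ∂μ.toSphere := by
  have h1 : ∫⁻ x, F x ∂μ = ∫⁻ x : ({0}ᶜ : Set E), F x ∂(μ.comap (↑)) := by
    rw [lintegral_subtype_comap (measurableSet_singleton (0 : E)).compl F]
    rw [restrict_compl_singleton]
  have hmp := μ.measurePreserving_homeomorphUnitSphereProd (E := E)
  have h2 : ∫⁻ x : ({0}ᶜ : Set E), F x ∂(μ.comap (↑)) =
      ∫⁻ p : sphere (0 : E) 1 × Ioi (0 : ℝ), F ((p.2 : ℝ) • (p.1 : E))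
        ∂(μ.toSphere.prod (Measure.volumeIoiPow (Module.finrank ℝ E - 1))) := by
    rw [← hmp.map_eq, (homeomorphUnitSphereProd E).measurableEmbedding.lintegral_map]
    refine lintegral_congr fun x => ?_
    congr 1
    simp only [homeomorphUnitSphereProd_apply_snd_coe, homeomorphUnitSphereProd_apply_fst_coe]
    rw [smul_smul, mul_inv_cancel₀ (norm_ne_zero_iff.2 x.2), one_smul]
  have hm : Measurable fun p : sphere (0 : E) 1 × Ioi (0 : ℝ) => F ((p.2 : ℝ) • (p.1 : E)) := by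
    refine hF.comp (Continuous.measurable ?_)
    fun_prop
  rw [h1, h2, lintegral_prod _ hm.aemeasurable]
  refine lintegral_congr fun v => ?_
  have hm2 : Measurable fun r : Ioi (0 : ℝ) => F ((r : ℝ) • (v : E)) := by
    refine hF.comp (Continuous.measurable ?_)
    fun_prop
  have hm3 : Measurable fun r : Ioi (0 : ℝ) =>
      ENNReal.ofReal (r.1 ^ (Module.finrank ℝ E - 1)) := by
    refine ENNReal.measurable_ofReal.comp (Continuous.measurable ?_)
    fun_prop
  rw [Measure.volumeIoiPow, lintegral_withDensity_eq_lintegral_mul _ hm3 hm2]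
  simp only [Pi.mul_apply]
  exact lintegral_subtype_comap measurableSet_Ioi
    fun s : ℝ => ENNReal.ofReal (s ^ (Module.finrank ℝ E - 1)) * F (s • (v : E))

theorem quad_swap {X Y : Type*} [MeasurableSpace X] [MeasurableSpace Y] (σ : Measure X)
    (l : Measure Y) [SFinite σ] [SFinite l] {H : (X × Y) × (X × Y) → ℝ≥0∞} (hH : Measurable H) :
    ∫⁻ w, ∫⁻ t, H ((w.1, t.1), (w.2, t.2)) ∂(l.prod l) ∂(σ.prod σ) =
      ∫⁻ p, ∫⁻ q, H (p, q) ∂(σ.prod l) ∂(σ.prod l) := by
  have m1 : Measurable fun z : (X × X) × (Y × Y) => H ((z.1.1, z.2.1), (z.1.2, z.2.2)) := by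
    fun_prop
  have m2 : Measurable fun w : X × X => ∫⁻ t, H ((w.1, t.1), (w.2, t.2)) ∂(l.prod l) :=
    m1.lintegral_prod_right'
  have m3 : Measurable fun p : X × Y => ∫⁻ q, H (p, q) ∂(σ.prod l) := hH.lintegral_prod_right'
  rw [lintegral_prod _ m2.aemeasurable, lintegral_prod _ m3.aemeasurable]
  refine lintegral_congr fun u => ?_
  have e1 : ∀ v, ∫⁻ t, H ((u, t.1), (v, t.2)) ∂(l.prod l) =
      ∫⁻ s, ∫⁻ s', H ((u, s), (v, s')) ∂l ∂l := fun v => by
    rw [lintegral_prod _ (by fun_prop)]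
  have e2 : ∀ s, ∫⁻ q, H ((u, s), q) ∂(σ.prod l) =
      ∫⁻ v, ∫⁻ s', H ((u, s), (v, s')) ∂l ∂σ := fun s => by
    rw [lintegral_prod _ (by fun_prop)]
  simp only [e1, e2]
  have m4 : Measurable fun z : (X × Y) × Y => H ((u, z.1.2), (z.1.1, z.2)) := by fun_prop
  have m5 : Measurable fun z : X × Y => ∫⁻ s', H ((u, z.2), (z.1, s')) ∂l :=
    m4.lintegral_prod_right'
  exact lintegral_lintegral_swap (f := fun v s => ∫⁻ s', H ((u, s), (v, s')) ∂l) m5.aemeasurable

theorem one_le_four {a b θ : ℝ} (ha : 0 < a) (hb : 0 < b) (h0 : 0 ≤ θ) (h1 : θ ≤ 1) :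
    1 ≤ a ^ (-θ) + b ^ (-θ) + a ^ (-θ) * b + b ^ (-θ) * a := by
  have pa : 0 < a ^ (-θ) := Real.rpow_pos_of_pos ha _
  have pb : 0 < b ^ (-θ) := Real.rpow_pos_of_pos hb _
  have key : ∀ {a b : ℝ}, 0 < a → 1 ≤ a → a ≤ b → 1 ≤ a ^ (-θ) * b := by
    intro a b ha ha1 hab
    have h2 : a ^ (-1 : ℝ) ≤ a ^ (-θ) := Real.rpow_le_rpow_of_exponent_le ha1 (by linarith)
    have h3 : a ^ (-1 : ℝ) * a = 1 := by
      rw [Real.rpow_neg_one, inv_mul_cancel₀ ha.ne']
    have h4 : 0 < a ^ (-θ) := Real.rpow_pos_of_pos ha _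
    calc (1 : ℝ) = a ^ (-1 : ℝ) * a := h3.symm
      _ ≤ a ^ (-θ) * b := by gcongr
  rcases le_total a 1 with ha1 | ha1
  · have h2 : 1 ≤ a ^ (-θ) := Real.one_le_rpow_of_pos_of_le_one_of_nonpos ha ha1 (by linarith)
    have : 0 < a ^ (-θ) * b := by positivity
    have : 0 < b ^ (-θ) * a := by positivity
    linarith
  rcases le_total b 1 with hb1 | hb1
  · have h2 : 1 ≤ b ^ (-θ) := Real.one_le_rpow_of_pos_of_le_one_of_nonpos hb hb1 (by linarith)
    have : 0 < a ^ (-θ) * b := by positivity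
    have : 0 < b ^ (-θ) * a := by positivity
    linarith
  have q1 : 0 < a ^ (-θ) * b := by positivity
  have q2 : 0 < b ^ (-θ) * a := by positivity
  rcases le_total a b with hab | hab
  · have := key ha ha1 hab
    linarith
  · have := key hb hb1 hab
    linarith

/-- The main estimate for the pairs of points of a shell. -/
theorem pairs_le {X : Type*} [MeasurableSpace X] (P : Measure X) [SFinite P] {f ρ : X → ℝ≥0∞}
    (hf : Measurable f) (hρ : Measurable ρ) {Q : Set (X × X)} (hQ : MeasurableSet Q)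
    (hsymm : ∀ p q, (p, q) ∈ Q → (q, p) ∈ Q) {V : ℝ≥0∞}
    (hV : ∀ p, ∫⁻ q, Q.indicator (fun _ => 1) (p, q) * ρ q ∂P ≤ V) {A : Set X}
    (hPA : P Aᶜ = 0)
    (hfρ : ∀ p ∈ A, ∀ q ∈ A, 1 ≤ f p + f q + f p * ρ q + f q * ρ p) :
    ∫⁻ p, ∫⁻ q, Q.indicator (fun _ => 1) (p, q) ∂P ∂P ≤
      2 * (P univ + V) * ∫⁻ p, f p ∂P := by
  set I : X × X → ℝ≥0∞ := Q.indicator fun _ => 1 with hI
  have hIm : Measurable I := measurable_const.indicator hQ
  have hIs : ∀ p q, I (p, q) = I (q, p) := by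
    intro p q
    by_cases h : (p, q) ∈ Q
    · rw [hI, indicator_of_mem h, indicator_of_mem (hsymm _ _ h)]
    · have h' : (q, p) ∉ Q := fun h' => h (hsymm _ _ h')
      rw [hI, indicator_of_notMem h, indicator_of_notMem h']
  have hI1 : ∀ p q, I (p, q) ≤ 1 := by
    intro p q
    rw [hI]
    exact indicator_le_self' (fun _ _ => zero_le_one) _ |>.trans le_rfl
  have hae : ∀ᵐ p ∂P, p ∈ A := by
    rw [ae_iff]
    exact hPA
  set F := ∫⁻ p, f p ∂P
  have t1 : ∫⁻ p, ∫⁻ _, f p ∂P ∂P = P univ * F := by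
    simp only [lintegral_const]
    rw [lintegral_mul_const _ hf, mul_comm]
  have t2 : ∫⁻ _ : X, ∫⁻ q, f q ∂P ∂P = P univ * F := by
    rw [lintegral_const, mul_comm]
  have t3 : ∫⁻ p, ∫⁻ q, f p * (I (p, q) * ρ q) ∂P ∂P ≤ V * F := by
    have : ∀ p, ∫⁻ q, f p * (I (p, q) * ρ q) ∂P ≤ V * f p := by
      intro p
      rw [lintegral_const_mul _ (by fun_prop), mul_comm]
      gcongr
      exact hV p
    calc _ ≤ ∫⁻ p, V * f p ∂P := lintegral_mono this
      _ = V * F := lintegral_const_mul _ hf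
  have t4 : ∫⁻ p, ∫⁻ q, f q * (I (p, q) * ρ p) ∂P ∂P ≤ V * F := by
    have hm : AEMeasurable (Function.uncurry fun p q : X => f q * (I (p, q) * ρ p))
        (P.prod P) := by
      refine Measurable.aemeasurable ?_
      unfold Function.uncurry
      fun_prop
    rw [lintegral_lintegral_swap hm]
    have e : ∀ q p, f q * (I (p, q) * ρ p) = f q * (I (q, p) * ρ p) := fun q p => by rw [hIs p q]
    simp only [e]
    exact t3
  calc ∫⁻ p, ∫⁻ q, I (p, q) ∂P ∂P
      ≤ ∫⁻ p, ∫⁻ q, (f p + f q + f p * (I (p, q) * ρ q) + f q * (I (p, q) * ρ p)) ∂P ∂P := by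
        refine lintegral_mono_ae ?_
        filter_upwards [hae] with p hp
        refine lintegral_mono_ae ?_
        filter_upwards [hae] with q hq
        by_cases h : (p, q) ∈ Q
        · have h1 : I (p, q) = 1 := by rw [hI, indicator_of_mem h]
          rw [h1, one_mul, one_mul]
          exact hfρ p hp q hq
        · have h1 : I (p, q) = 0 := by rw [hI, indicator_of_notMem h]
          rw [h1]
          exact bot_le
    _ = (∫⁻ p, ∫⁻ _, f p ∂P ∂P) + (∫⁻ _ : X, ∫⁻ q, f q ∂P ∂P) +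
        (∫⁻ p, ∫⁻ q, f p * (I (p, q) * ρ q) ∂P ∂P) +
        ∫⁻ p, ∫⁻ q, f q * (I (p, q) * ρ p) ∂P ∂P := by
        have s1 : ∀ p, ∫⁻ q, (f p + f q + f p * (I (p, q) * ρ q) + f q * (I (p, q) * ρ p)) ∂P =
            (∫⁻ _, f p ∂P) + (∫⁻ q, f q ∂P) + (∫⁻ q, f p * (I (p, q) * ρ q) ∂P) +
            ∫⁻ q, f q * (I (p, q) * ρ p) ∂P := by
          intro p
          rw [lintegral_add_left (by fun_prop), lintegral_add_left (by fun_prop),
            lintegral_add_left (by fun_prop)]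
        simp only [s1]
        have c1 : Measurable fun p : X => ∫⁻ _ : X, f p ∂P := by
          simp only [lintegral_const]; fun_prop
        have c3 : Measurable fun p : X => ∫⁻ q, f p * (I (p, q) * ρ q) ∂P := by
          have : Measurable fun z : X × X => f z.1 * (I (z.1, z.2) * ρ z.2) := by fun_prop
          exact this.lintegral_prod_right'
        rw [lintegral_add_left (by fun_prop), lintegral_add_left (by fun_prop),
          lintegral_add_left (by fun_prop)]
    _ ≤ P univ * F + P univ * F + V * F + V * F := by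
        rw [t1, t2]
        gcongr
    _ = 2 * (P univ + V) * F := by ring

end

end Pool.Agent.Lib.MP_6b187a_gt
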