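import Pool.Agent.Lib.MP_6b187a_gt.Top

/-!
# One fixed geodesic and almost every other
-/

set_option autoImplicit false

namespace Pool.Agent.Lib.MP_6b187a_gt

open MeasureTheory Set Filter Topology Metric
open scoped ENNReal NNReal

noncomputable section

theorem one_le_two {b θ l : ℝ} (hb : 0 < b) (hl : 0 < l) (h0 : 0 ≤ θ) :
    1 ≤ l * b + l ^ (-θ) * b ^ (-θ) := by
  have hlb : 0 < l * b := by positivity
  rw [← Real.mul_rpow hl.le hb.le]
  have hp : 0 < (l * b) ^ (-θ) := Real.rpow_pos_of_pos hlb _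
  rcases le_total (l * b) 1 with h | h
  · have := Real.one_le_rpow_of_pos_of_le_one_of_nonpos hlb h (by linarith : -θ ≤ 0)
    linarith
  · linarith

namespace RMetric

variable {n : ℕ} {M : RMetric n}

/-- The exponent `2 / (n - 1)`. -/
def theta (n : ℕ) : ℝ := 2 / (n - 1)

theorem theta_nonneg (hn : 3 ≤ n) : 0 ≤ theta n := by
  have : (3 : ℝ) ≤ n := by exact_mod_cast hn
  unfold theta
  have : (0 : ℝ) < n - 1 := by linarith
  positivity

theorem theta_le_one (hn : 3 ≤ n) : theta n ≤ 1 := by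
  have h3 : (3 : ℝ) ≤ n := by exact_mod_cast hn
  unfold theta
  rw [div_le_one (by linarith)]
  linarith

theorem rhoE_pos {r : sphere (0 : EuclideanSpace ℝ (Fin n)) 1 × ℝ} (hr : 0 < r.2) :
    0 < r.2 ^ (n - 1) * √((M.g (r.2 • (r.1 : EuclideanSpace ℝ (Fin n)))).det) := by
  have h := Real.sqrt_pos.2 (M.det_pos (r.2 • (r.1 : EuclideanSpace ℝ (Fin n))))
  positivity

theorem fE_eq (hn : 3 ≤ n) {r : sphere (0 : EuclideanSpace ℝ (Fin n)) 1 × ℝ} (hr : 0 < r.2) :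
    M.fE r = ENNReal.ofReal
      ((r.2 ^ (n - 1) * √((M.g (r.2 • (r.1 : EuclideanSpace ℝ (Fin n)))).det)) ^ (-theta n)) := by
  have hn1 : (0 : ℝ) < n - 1 := by
    have : (3 : ℝ) ≤ n := by exact_mod_cast hn
    linarith
  have hn2 : ((n - 1 : ℕ) : ℝ) = n - 1 := by
    rw [Nat.cast_sub (by omega), Nat.cast_one]
  have hD := M.det_nonneg (r.2 • (r.1 : EuclideanSpace ℝ (Fin n)))
  unfold fE theta
  congr 1
  rw [Real.mul_rpow (by positivity) (Real.sqrt_nonneg _)]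
  congr 1
  · rw [← Real.rpow_natCast r.2 (n - 1), hn2, ← Real.rpow_mul hr.le]
    have : (n - 1 : ℝ) * -(2 / (n - 1)) = -(2 : ℕ) := by
      push_cast
      field_simp
    rw [this, Real.rpow_neg hr.le, Real.rpow_natCast]
  · rw [Real.sqrt_eq_rpow, ← Real.rpow_mul hD]
    congr 1
    ring

theorem one_le_two_E (hn : 3 ≤ n) {l : ℝ} (hl : 0 < l)
    {q : sphere (0 : EuclideanSpace ℝ (Fin n)) 1 × ℝ} (hq : 0 < q.2) :
    1 ≤ ENNReal.ofReal l * M.rhoE q + ENNReal.ofReal (l ^ (-theta n)) * M.fE q := by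
  have h := one_le_two (rhoE_pos (M := M) hq) hl (theta_nonneg hn)
  rw [fE_eq hn hq]
  unfold rhoE
  have h1 := (rhoE_pos (M := M) hq).le
  have h2 := Real.rpow_nonneg h1 (-theta n)
  have h3 := Real.rpow_nonneg hl.le (-theta n)
  rw [← ENNReal.ofReal_mul hl.le, ← ENNReal.ofReal_mul h3,
    ← ENNReal.ofReal_add (by positivity) (by positivity)]
  rwa [ENNReal.one_le_ofReal]

/-- The directions `v` close to `u` at some time in `[j, j + 1]`. -/
def near (M : RMetric n) (C : ℝ) (j : ℕ) (u : sphere (0 : EuclideanSpace ℝ (Fin n)) 1) :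
    Set (sphere (0 : EuclideanSpace ℝ (Fin n)) 1) :=
  {v | ∃ t ∈ Icc (j : ℝ) (j + 1), M.dist (t • (u : EuclideanSpace ℝ (Fin n)))
    (t • (v : EuclideanSpace ℝ (Fin n))) ≤ C}

/-- The time spent by `v` in the ball around the point `j u` during `(j, j + 1]`. -/
def stay (M : RMetric n) (C : ℝ) (j : ℕ) (u v : sphere (0 : EuclideanSpace ℝ (Fin n)) 1) : ℝ≥0∞ :=
  ∫⁻ s in Ioc (j : ℝ) (j + 1), {y | M.dist ((j : ℝ) • (u : EuclideanSpace ℝ (Fin n))) y ≤
    C + 2}.indicator (fun _ => 1) (s • (v : EuclideanSpace ℝ (Fin n)))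

theorem measurable_stay_aux (C : ℝ) (j : ℕ) (u : sphere (0 : EuclideanSpace ℝ (Fin n)) 1) :
    Measurable fun q : sphere (0 : EuclideanSpace ℝ (Fin n)) 1 × ℝ =>
      {y | M.dist ((j : ℝ) • (u : EuclideanSpace ℝ (Fin n))) y ≤ C + 2}.indicator
        (fun _ => (1 : ℝ≥0∞)) (q.2 • (q.1 : EuclideanSpace ℝ (Fin n))) :=
  (measurable_const.indicator (isClosed_ball _ _).measurableSet).comp
    (Continuous.measurable (by fun_prop))

theorem measurable_stay (C : ℝ) (j : ℕ) (u : sphere (0 : EuclideanSpace ℝ (Fin n)) 1) :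
    Measurable (M.stay C j u) := (measurable_stay_aux (M := M) C j u).lintegral_prod_right'

theorem stay_le_one (C : ℝ) (j : ℕ) (u v : sphere (0 : EuclideanSpace ℝ (Fin n)) 1) :
    M.stay C j u v ≤ 1 := by
  unfold stay
  calc _ ≤ ∫⁻ s in Ioc (j : ℝ) (j + 1), (1 : ℝ≥0∞) := by
        refine lintegral_mono fun s => ?_
        exact indicator_le_self' (fun _ _ => zero_le_one) _ |>.trans le_rfl
    _ = 1 := by simp

theorem one_le_stay (hN : M.Normal) {C : ℝ} {j : ℕ}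
    {u v : sphere (0 : EuclideanSpace ℝ (Fin n)) 1} (hv : v ∈ M.near C j u) :
    1 ≤ M.stay C j u v := by
  obtain ⟨t, ht, hd⟩ := hv
  have hw1 : ‖(u : EuclideanSpace ℝ (Fin n))‖ = 1 := by simp
  have hw2 : ‖(v : EuclideanSpace ℝ (Fin n))‖ = 1 := by simp
  have h1 : (1 : ℝ≥0∞) = ∫⁻ s in Ioc (j : ℝ) (j + 1), (1 : ℝ≥0∞) := by simp
  unfold stay
  refine h1.le.trans (setLIntegral_mono' measurableSet_Ioc fun s hs => ?_)
  have hmem : s • (v : EuclideanSpace ℝ (Fin n)) ∈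
      {y | M.dist ((j : ℝ) • (u : EuclideanSpace ℝ (Fin n))) y ≤ C + 2} := by
    have a1 := dist_line_le_abs hN hw1 (j : ℝ) t
    have a2 := dist_line_le_abs hN hw2 t s
    have b1 := M.dist_triangle ((j : ℝ) • (u : EuclideanSpace ℝ (Fin n)))
      (t • (u : EuclideanSpace ℝ (Fin n))) (s • (v : EuclideanSpace ℝ (Fin n)))
    have b2 := M.dist_triangle (t • (u : EuclideanSpace ℝ (Fin n)))
      (t • (v : EuclideanSpace ℝ (Fin n))) (s • (v : EuclideanSpace ℝ (Fin n)))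
    have c1 : |t - j| ≤ 1 := by
      rw [abs_le]; constructor <;> linarith [ht.1, ht.2]
    have c2 : |s - t| ≤ 1 := by
      rw [abs_le]; constructor <;> linarith [ht.1, ht.2, hs.1, hs.2]
    show M.dist ((j : ℝ) • (u : EuclideanSpace ℝ (Fin n))) (s • (v : EuclideanSpace ℝ (Fin n))) ≤
      C + 2
    linarith
  rw [indicator_of_mem hmem]

theorem lintegral_stay_le (hn : 3 ≤ n) {C : ℝ} {V : ℝ≥0}
    (hV : ∀ x, M.vol {y | M.dist x y ≤ C + 2} ≤ V) (j : ℕ)
    (u : sphere (0 : EuclideanSpace ℝ (Fin n)) 1) {l : ℝ} (hl : 0 < l) :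
    ∫⁻ v, M.stay C j u v ∂(volume : Measure (EuclideanSpace ℝ (Fin n))).toSphere ≤
      ENNReal.ofReal l * V + ENNReal.ofReal (l ^ (-theta n)) * ∫⁻ p, M.fE p ∂(shell n j) := by
  set B := {y | M.dist ((j : ℝ) • (u : EuclideanSpace ℝ (Fin n))) y ≤ C + 2} with hB
  have h1 : ∫⁻ v, M.stay C j u v ∂(volume : Measure (EuclideanSpace ℝ (Fin n))).toSphere =
      ∫⁻ q, B.indicator (fun _ => (1 : ℝ≥0∞)) (q.2 • (q.1 : EuclideanSpace ℝ (Fin n)))
        ∂(shell n j) := by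
    unfold shell
    rw [lintegral_prod _ (measurable_stay_aux (M := M) C j u).aemeasurable]
    rfl
  rw [h1]
  have hae : ∀ᵐ q ∂(shell n j), 0 < q.2 := by
    rw [ae_iff]
    unfold shell
    have h1 : {p : sphere (0 : EuclideanSpace ℝ (Fin n)) 1 × ℝ | ¬ 0 < p.2} = univ ×ˢ Iic 0 := by
      ext p
      simp
    rw [h1, Measure.prod_prod, Measure.restrict_apply measurableSet_Iic]
    have h2 : Iic (0 : ℝ) ∩ Ioc (j : ℝ) (j + 1) = ∅ := by
      ext s
      simp only [mem_inter_iff, mem_Iic, mem_Ioc, mem_empty_iff_false, iff_false, not_and]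
      intro h3 h4
      have : (0 : ℝ) ≤ j := Nat.cast_nonneg j
      linarith
    rw [h2]
    simp
  have hm1 : Measurable fun q : sphere (0 : EuclideanSpace ℝ (Fin n)) 1 × ℝ =>
      B.indicator (fun _ => (1 : ℝ≥0∞)) (q.2 • (q.1 : EuclideanSpace ℝ (Fin n))) :=
    measurable_stay_aux (M := M) C j u
  have hm2 : Measurable fun q : sphere (0 : EuclideanSpace ℝ (Fin n)) 1 × ℝ =>
      B.indicator (fun _ => (1 : ℝ≥0∞)) (q.2 • (q.1 : EuclideanSpace ℝ (Fin n))) * M.rhoE q :=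
    hm1.mul measurable_rhoE
  calc ∫⁻ q, B.indicator (fun _ => (1 : ℝ≥0∞)) (q.2 • (q.1 : EuclideanSpace ℝ (Fin n)))
        ∂(shell n j)
      ≤ ∫⁻ q, (ENNReal.ofReal l * (B.indicator (fun _ => (1 : ℝ≥0∞))
          (q.2 • (q.1 : EuclideanSpace ℝ (Fin n))) * M.rhoE q) +
          ENNReal.ofReal (l ^ (-theta n)) * M.fE q) ∂(shell n j) := by
        refine lintegral_mono_ae ?_
        filter_upwards [hae] with q hq
        by_cases h : q.2 • (q.1 : EuclideanSpace ℝ (Fin n)) ∈ B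
        · rw [indicator_of_mem h, one_mul]
          exact one_le_two_E hn hl hq
        · rw [indicator_of_notMem h]
          exact bot_le
    _ = ENNReal.ofReal l * (∫⁻ q, B.indicator (fun _ => (1 : ℝ≥0∞))
          (q.2 • (q.1 : EuclideanSpace ℝ (Fin n))) * M.rhoE q ∂(shell n j)) +
          ENNReal.ofReal (l ^ (-theta n)) * ∫⁻ q, M.fE q ∂(shell n j) := by
        rw [lintegral_add_left (hm2.const_mul _), lintegral_const_mul _ hm2,
          lintegral_const_mul _ measurable_fE]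
    _ ≤ _ := by
        gcongr
        exact (shell_le_vol hn j _ _).trans (hV _)

/-- The exponent `2 / (n + 1)`. -/
def alpha (n : ℕ) : ℝ := 2 / (n + 1)

theorem alpha_pos (n : ℕ) : 0 < alpha n := by
  unfold alpha
  positivity

theorem alpha_le_one (hn : 3 ≤ n) : alpha n ≤ 1 := by
  have h3 : (3 : ℝ) ≤ n := by exact_mod_cast hn
  unfold alpha
  rw [div_le_one (by positivity)]
  linarith

theorem one_sub_alpha (hn : 3 ≤ n) : (1 - alpha n) * theta n = alpha n := by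
  have h3 : (3 : ℝ) ≤ n := by exact_mod_cast hn
  unfold alpha theta
  have : (n : ℝ) - 1 ≠ 0 := by linarith
  field_simp
  ring

theorem one_sub_alpha_mul (hn : 3 ≤ n) : (1 - alpha n) * (((n : ℝ) + 1) / (n - 1)) = 1 := by
  have h3 : (3 : ℝ) ≤ n := by exact_mod_cast hn
  unfold alpha
  have : (n : ℝ) - 1 ≠ 0 := by linarith
  field_simp
  ring

/-- The measure of the directions near `u` at the time `j`. -/
theorem near_le (hn : 3 ≤ n) (hN : M.Normal) {C : ℝ} {V : ℝ≥0}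
    (hV : ∀ x, M.vol {y | M.dist x y ≤ C + 2} ≤ V) (j : ℕ) {a : ℝ≥0} (ha : 0 < a)
    (hF : ∫⁻ p, M.fE p ∂(shell n j) ≤ a) (u : sphere (0 : EuclideanSpace ℝ (Fin n)) 1) :
    (volume : Measure (EuclideanSpace ℝ (Fin n))).toSphere (M.near C j u) ≤
      (V + 1) * (a : ℝ≥0∞) ^ (1 - alpha n) := by
  have ha' : (0 : ℝ) < a := by exact_mod_cast ha
  have hl0 : (0 : ℝ) < (a : ℝ) ^ (1 - alpha n) := Real.rpow_pos_of_pos ha' _
  have h2 := lintegral_stay_le (M := M) hn hV j u hl0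
  have h3 : (volume : Measure (EuclideanSpace ℝ (Fin n))).toSphere (M.near C j u) ≤
      ∫⁻ v, M.stay C j u v ∂(volume : Measure (EuclideanSpace ℝ (Fin n))).toSphere :=
    meas_le_lintegral₀ (measurable_stay C j u).aemeasurable fun v hv => one_le_stay hN hv
  have h4 : ENNReal.ofReal ((a : ℝ) ^ (1 - alpha n)) = (a : ℝ≥0∞) ^ (1 - alpha n) := by
    rw [← ENNReal.ofReal_rpow_of_pos ha', ENNReal.ofReal_coe_nnreal]
  have h5 : ENNReal.ofReal (((a : ℝ) ^ (1 - alpha n)) ^ (-theta n)) =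
      (a : ℝ≥0∞) ^ (-alpha n) := by
    rw [← Real.rpow_mul ha'.le, ← ENNReal.ofReal_rpow_of_pos ha', ENNReal.ofReal_coe_nnreal]
    congr 1
    rw [mul_neg, one_sub_alpha hn]
  have ha0 : (a : ℝ≥0∞) ≠ 0 := by exact_mod_cast ha.ne'
  calc _ ≤ _ := h3
    _ ≤ _ := h2
    _ = (a : ℝ≥0∞) ^ (1 - alpha n) * V + (a : ℝ≥0∞) ^ (-alpha n) *
        ∫⁻ p, M.fE p ∂(shell n j) := by rw [h4, h5]
    _ ≤ (a : ℝ≥0∞) ^ (1 - alpha n) * V + (a : ℝ≥0∞) ^ (-alpha n) * a := by gcongr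
    _ = (a : ℝ≥0∞) ^ (1 - alpha n) * V + (a : ℝ≥0∞) ^ (1 - alpha n) := by
        congr 1
        conv_lhs => rw [← ENNReal.rpow_one (a : ℝ≥0∞), ← ENNReal.rpow_mul, one_mul]
        rw [← ENNReal.rpow_add _ _ ha0 ENNReal.coe_ne_top]
        congr 1
        ring
    _ = _ := by ring

/-- The sum over `j` of a power of the largest measure of the set of the directions near one
direction. -/
theorem tsum_near (hn : 3 ≤ n) (hN : M.Normal) (hm : M.Minimizing)
    (hV : ∀ R : ℝ, ∃ V : ℝ≥0, ∀ x, M.vol {y | M.dist x y ≤ R} ≤ V) (C : ℝ) :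
    ∑' j : ℕ, (⨆ u, (volume : Measure (EuclideanSpace ℝ (Fin n))).toSphere
      (M.near C j u)) ^ (((n : ℝ) + 1) / (n - 1)) ≠ ⊤ := by
  have h3 : (3 : ℝ) ≤ n := by exact_mod_cast hn
  have hq : (0 : ℝ) ≤ ((n : ℝ) + 1) / (n - 1) := div_nonneg (by linarith) (by linarith)
  obtain ⟨V, hV⟩ := hV (C + 2)
  obtain ⟨B, hB, hsum⟩ := tsum_fE_le hN hm hn
  set W := (volume : Measure (EuclideanSpace ℝ (Fin n))).toSphere univ with hW
  have hWf : W ≠ ⊤ := measure_ne_top _ _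
  have hfin : ∀ j : ℕ, ∫⁻ p, M.fE p ∂(shell n (j + 1)) ≠ ⊤ := fun j =>
    ENNReal.ne_top_of_tsum_ne_top (ne_top_of_le_ne_top hB hsum) j
  have h1 : ∀ j : ℕ, (⨆ u, (volume : Measure (EuclideanSpace ℝ (Fin n))).toSphere
      (M.near C (j + 1) u)) ^ (((n : ℝ) + 1) / (n - 1)) ≤
      ((V : ℝ≥0∞) + 1) ^ (((n : ℝ) + 1) / (n - 1)) *
        (∫⁻ p, M.fE p ∂(shell n (j + 1)) + (2⁻¹) ^ (j + 1)) := by
    intro j
    obtain ⟨F, hF⟩ : ∃ F : ℝ≥0, (F : ℝ≥0∞) = ∫⁻ p, M.fE p ∂(shell n (j + 1)) :=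
      ⟨_, ENNReal.coe_toNNReal (hfin j)⟩
    set a : ℝ≥0 := F + (2⁻¹) ^ (j + 1) with ha
    have ha0 : 0 < a := by positivity
    have hFa : ∫⁻ p, M.fE p ∂(shell n (j + 1)) ≤ a := by
      rw [← hF]
      exact_mod_cast (le_add_of_nonneg_right bot_le : F ≤ a)
    have haE : (a : ℝ≥0∞) = ∫⁻ p, M.fE p ∂(shell n (j + 1)) + (2⁻¹) ^ (j + 1) := by
      rw [← hF, ha, ENNReal.coe_add, ENNReal.coe_pow, ENNReal.coe_inv (by norm_num)]
      rfl
    rw [← haE]
    calc (⨆ u, (volume : Measure (EuclideanSpace ℝ (Fin n))).toSphere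
          (M.near C (j + 1) u)) ^ (((n : ℝ) + 1) / (n - 1))
        ≤ ((V + 1) * (a : ℝ≥0∞) ^ (1 - alpha n)) ^ (((n : ℝ) + 1) / (n - 1)) := by
          refine ENNReal.rpow_le_rpow (iSup_le fun u => ?_) hq
          exact near_le hn hN hV (j + 1) ha0 hFa u
      _ = _ := by
          rw [ENNReal.mul_rpow_of_nonneg _ _ hq, ← ENNReal.rpow_mul, one_sub_alpha_mul hn,
            ENNReal.rpow_one]
  rw [tsum_eq_zero_add' ENNReal.summable]
  refine ENNReal.add_ne_top.2 ⟨?_, ?_⟩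
  · refine ENNReal.rpow_ne_top_of_nonneg hq (ne_top_of_le_ne_top hWf (iSup_le fun u => ?_))
    exact measure_mono (subset_univ _)
  · refine ne_top_of_le_ne_top ?_ (ENNReal.tsum_le_tsum h1)
    rw [ENNReal.tsum_mul_left, ENNReal.tsum_add]
    refine ENNReal.mul_ne_top (ENNReal.rpow_ne_top_of_nonneg hq
      (ENNReal.add_ne_top.2 ⟨ENNReal.coe_ne_top, ENNReal.one_ne_top⟩)) ?_
    refine ENNReal.add_ne_top.2 ⟨ne_top_of_le_ne_top hB hsum, ?_⟩
    refine ne_top_of_le_ne_top (b := ∑' j : ℕ, (2⁻¹ : ℝ≥0∞) ^ j) ?_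
      (ENNReal.tsum_le_tsum fun j => ?_)
    · rw [ENNReal.tsum_geometric, ENNReal.one_sub_inv_two, inv_inv]
      simp
    · exact pow_le_pow_right_of_le_one' (by simp) (Nat.le_succ j)

/-- The sum of the stays along the first `N` unit intervals. -/
theorem sum_stay_le (hn : 3 ≤ n) {C : ℝ} {V : ℝ≥0}
    (hV : ∀ x, M.vol {y | M.dist x y ≤ C + 2} ≤ V) {B : ℝ≥0∞}
    (hB : ∑' j : ℕ, ∫⁻ p, M.fE p ∂(shell n (j + 1)) ≤ B)
    (u : sphere (0 : EuclideanSpace ℝ (Fin n)) 1) {N : ℕ} (hN0 : 0 < N) :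
    ∫⁻ v, ∑ j ∈ Finset.range N, M.stay C j u v
      ∂(volume : Measure (EuclideanSpace ℝ (Fin n))).toSphere ≤
      (N : ℝ≥0∞) ^ (alpha n) *
        ((volume : Measure (EuclideanSpace ℝ (Fin n))).toSphere univ + V + B) := by
  set W := (volume : Measure (EuclideanSpace ℝ (Fin n))).toSphere univ with hW
  rw [lintegral_finsetSum _ fun j _ => measurable_stay C j u]
  obtain ⟨N', hN'⟩ : ∃ N', N = N' + 1 := ⟨N - 1, by omega⟩
  have hNR : (0 : ℝ) < N := by exact_mod_cast hN0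
  set l : ℝ := (N : ℝ) ^ (alpha n - 1) with hl
  have hl0 : 0 < l := Real.rpow_pos_of_pos hNR _
  have hcast : ∀ z : ℝ, ENNReal.ofReal ((N : ℝ) ^ z) = (N : ℝ≥0∞) ^ z := by
    intro z
    rw [← ENNReal.ofReal_rpow_of_pos hNR, ENNReal.ofReal_natCast]
  have hthE : ENNReal.ofReal (l ^ (-theta n)) = (N : ℝ≥0∞) ^ (alpha n) := by
    rw [hl, ← Real.rpow_mul hNR.le, hcast]
    congr 1
    have := one_sub_alpha hn
    linarith
  have hN1 : (1 : ℝ≥0∞) ≤ (N : ℝ≥0∞) ^ (alpha n) :=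
    ENNReal.one_le_rpow (by exact_mod_cast hN0) (alpha_pos n)
  have h0 : ∫⁻ v, M.stay C 0 u v ∂(volume : Measure (EuclideanSpace ℝ (Fin n))).toSphere ≤ W := by
    calc _ ≤ ∫⁻ _, 1 ∂(volume : Measure (EuclideanSpace ℝ (Fin n))).toSphere :=
          lintegral_mono fun v => stay_le_one C 0 u v
      _ = W := lintegral_one
  have h1 : ∀ j : ℕ, ∫⁻ v, M.stay C (j + 1) u v
      ∂(volume : Measure (EuclideanSpace ℝ (Fin n))).toSphere ≤
      ENNReal.ofReal l * V + (N : ℝ≥0∞) ^ (alpha n) * ∫⁻ p, M.fE p ∂(shell n (j + 1)) := by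
    intro j
    refine (lintegral_stay_le hn hV (j + 1) u hl0).trans_eq ?_
    rw [hthE]
  have hlN : (N' : ℝ≥0∞) * (ENNReal.ofReal l * V) ≤ (N : ℝ≥0∞) ^ (alpha n) * V := by
    rw [← mul_assoc]
    gcongr
    have h2 : (N' : ℝ≥0∞) ≤ N := by
      exact_mod_cast (by omega : N' ≤ N)
    calc (N' : ℝ≥0∞) * ENNReal.ofReal l ≤ (N : ℝ≥0∞) * ENNReal.ofReal l := by gcongr
      _ = (N : ℝ≥0∞) ^ (alpha n) := by
          have hN0' : (N : ℝ≥0∞) ≠ 0 := by exact_mod_cast hN0.ne'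
          rw [hl, hcast]
          conv_lhs => rw [← ENNReal.rpow_one (N : ℝ≥0∞), ← ENNReal.rpow_mul, one_mul]
          rw [← ENNReal.rpow_add _ _ hN0' (ENNReal.natCast_ne_top N)]
          congr 1
          ring
  set P := (N : ℝ≥0∞) ^ (alpha n) with hP
  have hsplit : ∑ j ∈ Finset.range N, ∫⁻ v, M.stay C j u v
        ∂(volume : Measure (EuclideanSpace ℝ (Fin n))).toSphere =
      (∑ j ∈ Finset.range N', ∫⁻ v, M.stay C (j + 1) u v
          ∂(volume : Measure (EuclideanSpace ℝ (Fin n))).toSphere) +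
        ∫⁻ v, M.stay C 0 u v ∂(volume : Measure (EuclideanSpace ℝ (Fin n))).toSphere := by
    rw [hN', Finset.sum_range_succ']
  rw [hsplit]
  calc (∑ j ∈ Finset.range N', ∫⁻ v, M.stay C (j + 1) u v
          ∂(volume : Measure (EuclideanSpace ℝ (Fin n))).toSphere) +
        ∫⁻ v, M.stay C 0 u v ∂(volume : Measure (EuclideanSpace ℝ (Fin n))).toSphere
      ≤ (∑ j ∈ Finset.range N', (ENNReal.ofReal l * V +
          P * ∫⁻ p, M.fE p ∂(shell n (j + 1)))) + W :=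
        add_le_add (Finset.sum_le_sum fun j _ => h1 j) h0
    _ = (N' : ℝ≥0∞) * (ENNReal.ofReal l * V) +
          P * (∑ j ∈ Finset.range N', ∫⁻ p, M.fE p ∂(shell n (j + 1))) + W := by
        rw [Finset.sum_add_distrib, Finset.sum_const, Finset.card_range, nsmul_eq_mul,
          ← Finset.mul_sum]
    _ ≤ P * V + P * B + P * W := by
        gcongr
        · exact (ENNReal.sum_le_tsum _).trans hB
        · exact le_mul_of_one_le_left bot_le hN1
    _ = P * (W + V + B) := by ring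

/-- For every `u` and almost every `v` the number of the times up to `T` at which the geodesics are
close is `o(T ^ (α + ε))`. -/
theorem near_times (hn : 3 ≤ n) (hN : M.Normal) (hm : M.Minimizing)
    (hV : ∀ R : ℝ, ∃ V : ℝ≥0, ∀ x, M.vol {y | M.dist x y ≤ R} ≤ V)
    (u : sphere (0 : EuclideanSpace ℝ (Fin n)) 1) :
    ∀ᵐ v ∂(volume : Measure (EuclideanSpace ℝ (Fin n))).toSphere, ∀ C ε : ℝ, 0 < ε →
      Tendsto (fun T : ℕ => ({j : ℕ | j < T ∧ v ∈ M.near C j u}.ncard : ℝ) /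
        (T : ℝ) ^ (alpha n + ε)) atTop (𝓝 0) := by
  obtain ⟨B, hB, hsum⟩ := tsum_fE_le hN hm hn
  have key : ∀ C m : ℕ, ∀ᵐ v ∂(volume : Measure (EuclideanSpace ℝ (Fin n))).toSphere,
      Tendsto (fun k : ℕ => (∑ j ∈ Finset.range (2 ^ k), M.stay (C : ℝ) j u v) *
        ((2 ^ k : ℕ) : ℝ≥0∞) ^ (-(alpha n + 1 / ((m : ℝ) + 1)))) atTop (𝓝 0) := by
    intro C m
    obtain ⟨V, hV⟩ := hV (C + 2)
    set W := (volume : Measure (EuclideanSpace ℝ (Fin n))).toSphere univ with hW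
    have hWf : W ≠ ⊤ := measure_ne_top _ _
    set z : ℝ := 1 / ((m : ℝ) + 1) with hz
    have hz0 : 0 < z := by positivity
    have hmeas : ∀ k : ℕ, Measurable fun v =>
        (∑ j ∈ Finset.range (2 ^ k), M.stay (C : ℝ) j u v) *
          ((2 ^ k : ℕ) : ℝ≥0∞) ^ (-(alpha n + z)) := by
      intro k
      refine Measurable.mul ?_ measurable_const
      exact Finset.measurable_fun_sum _ fun j _ => measurable_stay C j u
    have h1 : ∫⁻ v, ∑' k : ℕ, (∑ j ∈ Finset.range (2 ^ k), M.stay (C : ℝ) j u v) *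
        ((2 ^ k : ℕ) : ℝ≥0∞) ^ (-(alpha n + z))
        ∂(volume : Measure (EuclideanSpace ℝ (Fin n))).toSphere ≠ ⊤ := by
      rw [lintegral_tsum fun k => (hmeas k).aemeasurable]
      have h2 : ∀ k : ℕ, ∫⁻ v, (∑ j ∈ Finset.range (2 ^ k), M.stay (C : ℝ) j u v) *
          ((2 ^ k : ℕ) : ℝ≥0∞) ^ (-(alpha n + z))
          ∂(volume : Measure (EuclideanSpace ℝ (Fin n))).toSphere ≤
          ((2 : ℝ≥0∞) ^ (-z)) ^ k * (W + V + B) := by
        intro k
        have h20 : ((2 ^ k : ℕ) : ℝ≥0∞) ≠ 0 := by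
          simp
        have h2t : ((2 ^ k : ℕ) : ℝ≥0∞) ≠ ⊤ := ENNReal.natCast_ne_top _
        rw [lintegral_mul_const' _ _ (ENNReal.rpow_ne_top_of_ne_zero h20 h2t)]
        have h3 := sum_stay_le hn hV hsum u (N := 2 ^ k) (by positivity)
        calc _ ≤ ((2 ^ k : ℕ) : ℝ≥0∞) ^ (alpha n) * (W + V + B) *
              ((2 ^ k : ℕ) : ℝ≥0∞) ^ (-(alpha n + z)) := by gcongr
          _ = ((2 ^ k : ℕ) : ℝ≥0∞) ^ (alpha n) * ((2 ^ k : ℕ) : ℝ≥0∞) ^ (-(alpha n + z)) *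
              (W + V + B) := by ring
          _ = ((2 : ℝ≥0∞) ^ (-z)) ^ k * (W + V + B) := by
              rw [← ENNReal.rpow_add _ _ h20 h2t]
              congr 1
              have : alpha n + -(alpha n + z) = -z := by ring
              rw [this]
              push_cast
              rw [← ENNReal.rpow_natCast, ← ENNReal.rpow_natCast, ← ENNReal.rpow_mul,
                ← ENNReal.rpow_mul, mul_comm]
      refine ne_top_of_le_ne_top ?_ (ENNReal.tsum_le_tsum h2)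
      rw [ENNReal.tsum_mul_right, ENNReal.tsum_geometric]
      refine ENNReal.mul_ne_top ?_ (ENNReal.add_ne_top.2 ⟨ENNReal.add_ne_top.2
        ⟨hWf, ENNReal.coe_ne_top⟩, hB⟩)
      have h4 : (2 : ℝ≥0∞) ^ (-z) < 1 :=
        ENNReal.rpow_lt_one_of_one_lt_of_neg (by norm_num) (by linarith)
      rw [ENNReal.inv_ne_top]
      exact (tsub_pos_of_lt h4).ne'
    have h2 := ae_lt_top' (AEMeasurable.tsum fun k => (hmeas k).aemeasurable) h1
    filter_upwards [h2] with v hv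
    exact ENNReal.tendsto_atTop_zero_of_tsum_ne_top hv.ne
  filter_upwards [ae_all_iff.2 fun C => ae_all_iff.2 (key C)] with v hv C e he
  obtain ⟨C', hC'⟩ := exists_nat_ge C
  obtain ⟨m, hm⟩ := exists_nat_one_div_lt he
  set z : ℝ := 1 / ((m : ℝ) + 1) with hz
  have hz0 : 0 < z := by positivity
  have hz1 : z ≤ 1 := by
    rw [hz, div_le_one (by positivity)]
    have : (0 : ℝ) ≤ m := Nat.cast_nonneg m
    linarith
  have hcount : ∀ T k : ℕ, T ≤ 2 ^ k → (({j : ℕ | j < T ∧ v ∈ M.near C j u}.ncard : ℕ) : ℝ≥0∞) ≤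
      ∑ j ∈ Finset.range (2 ^ k), M.stay (C' : ℝ) j u v := by
    intro T k hTk
    classical
    have hset : {j : ℕ | j < T ∧ v ∈ M.near C j u} =
        ↑((Finset.range T).filter fun j => v ∈ M.near C j u) := by
      ext j
      simp
    rw [hset, Set.ncard_coe_finset, Finset.card_eq_sum_ones]
    push_cast
    calc ∑ _j ∈ (Finset.range T).filter (fun j => v ∈ M.near C j u), (1 : ℝ≥0∞)
        ≤ ∑ j ∈ (Finset.range T).filter (fun j => v ∈ M.near C j u), M.stay (C' : ℝ) j u v := by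
          refine Finset.sum_le_sum fun j hj => one_le_stay hN ?_
          obtain ⟨t, ht, hd⟩ := (Finset.mem_filter.1 hj).2
          exact ⟨t, ht, hd.trans hC'⟩
      _ ≤ ∑ j ∈ Finset.range (2 ^ k), M.stay (C' : ℝ) j u v := by
          refine Finset.sum_le_sum_of_subset fun j hj => ?_
          have := (Finset.mem_filter.1 hj).1
          rw [Finset.mem_range] at this ⊢
          omega
  rw [Metric.tendsto_atTop]
  intro ε hε
  have h1 := hv C' m
  have h2 : (0 : ℝ≥0∞) < ENNReal.ofReal (ε / 4) := by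
    rw [ENNReal.ofReal_pos]; positivity
  obtain ⟨k₀, hk₀⟩ := eventually_atTop.1 (h1.eventually_lt_const h2)
  refine ⟨2 ^ k₀, fun T hT => ?_⟩
  have hT0 : 0 < T := lt_of_lt_of_le (by positivity) hT
  have hTR : (0 : ℝ) < T := by exact_mod_cast hT0
  have hT1 : (1 : ℝ) ≤ T := by exact_mod_cast hT0
  -- the power of two just above `T`
  obtain ⟨k, hk1, hk2⟩ : ∃ k, 2 ^ k ≤ T ∧ T < 2 ^ (k + 1) :=
    ⟨Nat.log 2 T, Nat.pow_log_le_self 2 hT0.ne', Nat.lt_pow_succ_log_self (by norm_num) T⟩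
  have hkk : k₀ ≤ k + 1 := by
    have h3 : 2 ^ k₀ < 2 ^ (k + 1) := lt_of_le_of_lt hT hk2
    exact ((Nat.pow_lt_pow_iff_right (by norm_num)).1 h3).le
  have h3 := hk₀ (k + 1) hkk
  have h4 := hcount T (k + 1) hk2.le
  set c := {j : ℕ | j < T ∧ v ∈ M.near C j u}.ncard with hc
  have h5 : (c : ℝ≥0∞) * ((2 ^ (k + 1) : ℕ) : ℝ≥0∞) ^ (-(alpha n + z)) <
      ENNReal.ofReal (ε / 4) := by
    refine lt_of_le_of_lt ?_ h3
    gcongr
  have h2R : (0 : ℝ) < ((2 ^ (k + 1) : ℕ) : ℝ) := by positivity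
  have h6 : (c : ℝ) * ((2 ^ (k + 1) : ℕ) : ℝ) ^ (-(alpha n + z)) < ε / 4 := by
    have h7 : (c : ℝ≥0∞) * ((2 ^ (k + 1) : ℕ) : ℝ≥0∞) ^ (-(alpha n + z)) =
        ENNReal.ofReal ((c : ℝ) * ((2 ^ (k + 1) : ℕ) : ℝ) ^ (-(alpha n + z))) := by
      rw [ENNReal.ofReal_mul (by positivity), ENNReal.ofReal_natCast,
        ← ENNReal.ofReal_rpow_of_pos h2R, ENNReal.ofReal_natCast]
    rw [h7, ENNReal.ofReal_lt_ofReal_iff (by positivity)] at h5
    exact h5
  have ha1 := alpha_le_one hn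
  have ha0 := alpha_pos n
  rw [Real.dist_eq, sub_zero, abs_of_nonneg (by positivity),
    div_lt_iff₀ (Real.rpow_pos_of_pos hTR _)]
  rw [Real.rpow_neg h2R.le, ← div_eq_mul_inv, div_lt_iff₀ (Real.rpow_pos_of_pos h2R _)] at h6
  have h8 : ((2 ^ (k + 1) : ℕ) : ℝ) ≤ 2 * T := by
    have : 2 ^ (k + 1) ≤ 2 * T := by rw [pow_succ]; omega
    exact_mod_cast this
  have h9 : (2 : ℝ) ^ (alpha n + z) ≤ 4 := by
    calc (2 : ℝ) ^ (alpha n + z) ≤ 2 ^ (2 : ℝ) :=
          Real.rpow_le_rpow_of_exponent_le (by norm_num) (by linarith)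
      _ = 4 := by norm_num
  calc (c : ℝ) < ε / 4 * ((2 ^ (k + 1) : ℕ) : ℝ) ^ (alpha n + z) := h6
    _ ≤ ε / 4 * (2 * T) ^ (alpha n + z) := by
        gcongr
    _ = ε / 4 * (2 ^ (alpha n + z) * (T : ℝ) ^ (alpha n + z)) := by
        rw [Real.mul_rpow (by norm_num) hTR.le]
    _ ≤ ε / 4 * (4 * (T : ℝ) ^ (alpha n + e)) := by
        have h10 : (T : ℝ) ^ (alpha n + z) ≤ (T : ℝ) ^ (alpha n + e) :=
          Real.rpow_le_rpow_of_exponent_le hT1 (by linarith)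
        gcongr
    _ = ε * (T : ℝ) ^ (alpha n + e) := by ring

end RMetric

end

end Pool.Agent.Lib.MP_6b187a_gt
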