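import Pool.Agent.Lib.MP_6b187a_gt.Det
import Pool.Agent.Lib.MP_6b187a_gt.Meas

/-!
# Almost every pair of geodesics from the origin diverges
-/

set_option autoImplicit false

namespace Pool.Agent.Lib.MP_6b187a_gt

open MeasureTheory Set Filter Topology Metric
open scoped ENNReal NNReal

noncomputable section

namespace RMetric

variable {n : ℕ} {M : RMetric n}

/-- The function `J ^ (-2 / (n - 1))` in polar coordinates, `J` the density of the volume. -/
def fE (M : RMetric n) (p : sphere (0 : EuclideanSpace ℝ (Fin n)) 1 × ℝ) : ℝ≥0∞ :=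
  ENNReal.ofReal ((p.2 ^ 2)⁻¹ * (M.g (p.2 • (p.1 : EuclideanSpace ℝ (Fin n)))).det ^
    (-(1 / (n - 1 : ℝ))))

/-- The density `J` of the volume in polar coordinates. -/
def rhoE (M : RMetric n) (p : sphere (0 : EuclideanSpace ℝ (Fin n)) 1 × ℝ) : ℝ≥0∞ :=
  ENNReal.ofReal (p.2 ^ (n - 1) * √((M.g (p.2 • (p.1 : EuclideanSpace ℝ (Fin n)))).det))

theorem continuous_detg : Continuous fun p : sphere (0 : EuclideanSpace ℝ (Fin n)) 1 × ℝ =>
    (M.g (p.2 • (p.1 : EuclideanSpace ℝ (Fin n)))).det := by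
  have h1 : Continuous fun p : sphere (0 : EuclideanSpace ℝ (Fin n)) 1 × ℝ =>
      M.g (p.2 • (p.1 : EuclideanSpace ℝ (Fin n))) := M.continuous_g.comp (by fun_prop)
  exact ContinuousLinearMap.continuous_det.comp h1

theorem measurable_fE : Measurable M.fE := by
  refine ENNReal.measurable_ofReal.comp (Measurable.mul (by fun_prop) ?_)
  have h : Measurable fun p : sphere (0 : EuclideanSpace ℝ (Fin n)) 1 × ℝ =>
    (M.g (p.2 • (p.1 : EuclideanSpace ℝ (Fin n)))).det := continuous_detg.measurable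
  exact h.pow_const _

theorem measurable_rhoE : Measurable M.rhoE := by
  refine ENNReal.measurable_ofReal.comp (Continuous.measurable ?_)
  exact (continuous_snd.pow _).mul (Real.continuous_sqrt.comp continuous_detg)

theorem one_le_four_E (hn : 3 ≤ n) {p q : sphere (0 : EuclideanSpace ℝ (Fin n)) 1 × ℝ}
    (hp : 0 < p.2) (hq : 0 < q.2) :
    1 ≤ M.fE p + M.fE q + M.fE p * M.rhoE q + M.fE q * M.rhoE p := by
  have hn1 : (0 : ℝ) < n - 1 := by
    have : (3 : ℝ) ≤ n := by exact_mod_cast hn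
    linarith
  have hn2 : ((n - 1 : ℕ) : ℝ) = n - 1 := by
    rw [Nat.cast_sub (by omega), Nat.cast_one]
  set θ : ℝ := 2 / (n - 1) with hθ
  have hθ0 : 0 ≤ θ := by positivity
  have hθ1 : θ ≤ 1 := by
    rw [hθ, div_le_one hn1]
    have : (3 : ℝ) ≤ n := by exact_mod_cast hn
    linarith
  have key : ∀ r : sphere (0 : EuclideanSpace ℝ (Fin n)) 1 × ℝ, 0 < r.2 →
      (r.2 ^ 2)⁻¹ * (M.g (r.2 • (r.1 : EuclideanSpace ℝ (Fin n)))).det ^ (-(1 / (n - 1 : ℝ))) =
      (r.2 ^ (n - 1) * √((M.g (r.2 • (r.1 : EuclideanSpace ℝ (Fin n)))).det)) ^ (-θ) := by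
    intro r hr
    have hD := M.det_nonneg (r.2 • (r.1 : EuclideanSpace ℝ (Fin n)))
    rw [Real.mul_rpow (by positivity) (Real.sqrt_nonneg _)]
    congr 1
    · rw [← Real.rpow_natCast r.2 (n - 1), hn2, ← Real.rpow_mul hr.le, hθ]
      have : (n - 1 : ℝ) * -(2 / (n - 1)) = -(2 : ℕ) := by
        push_cast
        field_simp
      rw [this, Real.rpow_neg hr.le, Real.rpow_natCast]
    · rw [Real.sqrt_eq_rpow, ← Real.rpow_mul hD, hθ]
      congr 1
      ring
  have hJ : ∀ r : sphere (0 : EuclideanSpace ℝ (Fin n)) 1 × ℝ, 0 < r.2 →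
      0 < r.2 ^ (n - 1) * √((M.g (r.2 • (r.1 : EuclideanSpace ℝ (Fin n)))).det) := by
    intro r hr
    have h := Real.sqrt_pos.2 (M.det_pos (r.2 • (r.1 : EuclideanSpace ℝ (Fin n))))
    positivity
  have h := one_le_four (hJ p hp) (hJ q hq) hθ0 hθ1
  rw [← key p hp, ← key q hq] at h
  have f0 : ∀ r : sphere (0 : EuclideanSpace ℝ (Fin n)) 1 × ℝ, 0 < r.2 →
      0 ≤ (r.2 ^ 2)⁻¹ * (M.g (r.2 • (r.1 : EuclideanSpace ℝ (Fin n)))).det ^
        (-(1 / (n - 1 : ℝ))) := by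
    intro r hr
    have := Real.rpow_nonneg (M.det_nonneg (r.2 • (r.1 : EuclideanSpace ℝ (Fin n))))
      (-(1 / (n - 1 : ℝ)))
    positivity
  have fp := f0 p hp
  have fq := f0 q hq
  have jp := (hJ p hp).le
  have jq := (hJ q hq).le
  unfold fE rhoE
  rw [← ENNReal.ofReal_mul fp, ← ENNReal.ofReal_mul fq, ← ENNReal.ofReal_add fp fq,
    ← ENNReal.ofReal_add (by positivity) (by positivity),
    ← ENNReal.ofReal_add (by positivity) (by positivity)]
  rwa [ENNReal.one_le_ofReal]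

/-- The shell of the points at distance in `(j, j + 1]` from the origin. -/
def shell (n : ℕ) (j : ℕ) : Measure (sphere (0 : EuclideanSpace ℝ (Fin n)) 1 × ℝ) :=
  (volume : Measure (EuclideanSpace ℝ (Fin n))).toSphere.prod (volume.restrict (Ioc (j : ℝ) (j + 1)))

instance (j : ℕ) : IsFiniteMeasure (shell n j) := by
  unfold shell
  infer_instance

theorem shell_univ (j : ℕ) : shell n j univ =
    (volume : Measure (EuclideanSpace ℝ (Fin n))).toSphere univ := by
  unfold shell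
  rw [← univ_prod_univ, Measure.prod_prod]
  simp

theorem isClosed_ball (x : EuclideanSpace ℝ (Fin n)) (R : ℝ) : IsClosed {y | M.dist x y ≤ R} :=
  isClosed_le (M.continuous_dist.comp (by fun_prop : Continuous fun y => (x, y))) continuous_const

theorem shell_le_vol (hn : 3 ≤ n) (j : ℕ) (x : EuclideanSpace ℝ (Fin n)) (R : ℝ) :
    ∫⁻ q, {y | M.dist x y ≤ R}.indicator (fun _ => 1) (q.2 • (q.1 : EuclideanSpace ℝ (Fin n))) *
      M.rhoE q ∂(shell n j) ≤ M.vol {y | M.dist x y ≤ R} := by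
  have : Nonempty (Fin n) := ⟨⟨0, by omega⟩⟩
  set B := {y | M.dist x y ≤ R} with hB
  have hBm : MeasurableSet B := (isClosed_ball x R).measurableSet
  have hd : Measurable fun y : EuclideanSpace ℝ (Fin n) => ENNReal.ofReal √((M.g y).det) := by
    refine ENNReal.measurable_ofReal.comp (Continuous.measurable ?_)
    exact Real.continuous_sqrt.comp (ContinuousLinearMap.continuous_det.comp M.continuous_g)
  have h1 : M.vol B = ∫⁻ y, B.indicator (fun y => ENNReal.ofReal √((M.g y).det)) y := by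
    rw [lintegral_indicator hBm]
    rfl
  have h2 : Measurable (B.indicator fun y => ENNReal.ofReal √((M.g y).det)) := hd.indicator hBm
  rw [h1, lintegral_polar volume h2]
  have hm : Measurable fun q : sphere (0 : EuclideanSpace ℝ (Fin n)) 1 × ℝ =>
      B.indicator (fun _ => (1 : ℝ≥0∞)) (q.2 • (q.1 : EuclideanSpace ℝ (Fin n))) * M.rhoE q := by
    refine Measurable.mul ?_ measurable_rhoE
    exact (measurable_const.indicator hBm).comp (Continuous.measurable (by fun_prop))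
  unfold shell
  rw [lintegral_prod _ hm.aemeasurable]
  refine lintegral_mono fun v => ?_
  have hsub : Ioc (j : ℝ) (j + 1) ⊆ Ioi 0 := fun s hs => lt_of_le_of_lt (Nat.cast_nonneg j) hs.1
  refine le_trans ?_ (lintegral_mono_set hsub)
  refine setLIntegral_mono' measurableSet_Ioc fun s hs => ?_
  have hs0 : 0 < s := hsub hs
  by_cases h : s • (v : EuclideanSpace ℝ (Fin n)) ∈ B
  · rw [indicator_of_mem h, indicator_of_mem h, one_mul, finrank_euclideanSpace_fin]
    unfold rhoE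
    rw [ENNReal.ofReal_mul (by positivity)]
  · rw [indicator_of_notMem h, indicator_of_notMem h]
    simp

theorem sum_Ioc_le {f : ℝ → ℝ≥0∞} (N : ℕ) :
    ∑ j ∈ Finset.range N, ∫⁻ s in Ioc ((j + 1 : ℕ) : ℝ) ((j + 1 : ℕ) + 1), f s =
      ∫⁻ s in Ioc (1 : ℝ) (N + 1), f s := by
  induction N with
  | zero => simp
  | succ N ih =>
    rw [Finset.sum_range_succ, ih]
    have h1 : Ioc (1 : ℝ) ((N + 1 : ℕ) + 1) =
        Ioc (1 : ℝ) (N + 1) ∪ Ioc ((N + 1 : ℕ) : ℝ) ((N + 1 : ℕ) + 1) := by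
      push_cast
      rw [Ioc_union_Ioc_eq_Ioc (by have : (0 : ℝ) ≤ N := Nat.cast_nonneg N; linarith) (by linarith)]
    have hd : Disjoint (Ioc (1 : ℝ) (N + 1)) (Ioc ((N + 1 : ℕ) : ℝ) ((N + 1 : ℕ) + 1)) := by
      push_cast
      rw [Set.disjoint_left]
      intro s hs hs'
      exact absurd hs.2 (not_le.2 hs'.1)
    rw [h1, lintegral_union measurableSet_Ioc hd]

theorem tsum_fE_le (hN : M.Normal) (hm : M.Minimizing) (hn : 3 ≤ n) : ∃ B : ℝ≥0∞, B ≠ ⊤ ∧
    ∑' j : ℕ, ∫⁻ p, M.fE p ∂(shell n (j + 1)) ≤ B := by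
  obtain ⟨δ, hδ0, hδ⟩ := hN.exists_corner
  refine ⟨ENNReal.ofReal (1 / δ) * (volume : Measure (EuclideanSpace ℝ (Fin n))).toSphere univ,
    ENNReal.mul_ne_top ENNReal.ofReal_ne_top (measure_ne_top _ _), ?_⟩
  refine ENNReal.tsum_le_of_sum_range_le fun N => ?_
  have h1 : ∀ j : ℕ, ∫⁻ p, M.fE p ∂(shell n (j + 1)) =
      ∫⁻ v, (∫⁻ s in Ioc ((j + 1 : ℕ) : ℝ) ((j + 1 : ℕ) + 1), M.fE (v, s))
        ∂(volume : Measure (EuclideanSpace ℝ (Fin n))).toSphere := by
    intro j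
    unfold shell
    rw [lintegral_prod _ measurable_fE.aemeasurable]
  simp only [h1]
  have hmv : ∀ j : ℕ, Measurable fun v : sphere (0 : EuclideanSpace ℝ (Fin n)) 1 =>
      ∫⁻ s in Ioc ((j + 1 : ℕ) : ℝ) ((j + 1 : ℕ) + 1), M.fE (v, s) := fun j =>
    measurable_fE.lintegral_prod_right'
  rw [← lintegral_finsetSum _ fun j _ => hmv j]
  simp only [sum_Ioc_le]
  rw [← lintegral_const]
  refine lintegral_mono fun v => ?_
  have hv : ‖(v : EuclideanSpace ℝ (Fin n))‖ = 1 := by simp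
  have hT : (1 : ℝ) ≤ N + 1 := by
    have : (0 : ℝ) ≤ N := Nat.cast_nonneg N
    linarith
  have h2 := integral_det_le hN hm (by omega) hδ0 hδ hv hT
  set F : ℝ → ℝ := fun s => (s ^ 2)⁻¹ * (M.g (s • (v : EuclideanSpace ℝ (Fin n)))).det ^
    (-(1 / (n - 1 : ℝ))) with hF
  have hFc : ContinuousOn F (Icc 1 (N + 1)) := by
    refine ContinuousOn.mul (ContinuousOn.inv₀ (by fun_prop) fun s hs => ?_) ?_
    · have := hs.1
      positivity
    · have h3 : Continuous fun s : ℝ => M.g (s • (v : EuclideanSpace ℝ (Fin n))) :=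
        M.continuous_g.comp (by fun_prop)
      exact (ContinuousLinearMap.continuous_det.comp h3).continuousOn.rpow_const
        fun s _ => Or.inl (M.det_pos _).ne'
  have hFi : IntegrableOn F (Ioc 1 (N + 1)) :=
    (hFc.integrableOn_Icc).mono_set Ioc_subset_Icc_self
  have hF0 : ∀ s, 0 ≤ F s := fun s => by
    have := Real.rpow_nonneg (M.det_nonneg (s • (v : EuclideanSpace ℝ (Fin n))))
      (-(1 / (n - 1 : ℝ)))
    positivity
  rw [intervalIntegral.integral_of_le hT] at h2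
  have h3 : ∫⁻ s in Ioc (1 : ℝ) (N + 1), M.fE (v, s) =
      ENNReal.ofReal (∫ s in Ioc (1 : ℝ) (N + 1), F s) := by
    rw [ofReal_integral_eq_lintegral_ofReal hFi (Eventually.of_forall hF0)]
    rfl
  rw [h3]
  exact ENNReal.ofReal_le_ofReal h2

/-- The pairs of directions which are close at some time in `[j, j + 1]`. -/
def bad (M : RMetric n) (C : ℝ) (j : ℕ) : Set (sphere (0 : EuclideanSpace ℝ (Fin n)) 1 ×
    sphere (0 : EuclideanSpace ℝ (Fin n)) 1) :=
  {w | ∃ t ∈ Icc (j : ℝ) (j + 1), M.dist (t • (w.1 : EuclideanSpace ℝ (Fin n)))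
    (t • (w.2 : EuclideanSpace ℝ (Fin n))) ≤ C}

theorem bad_le (hN : M.Normal) (C : ℝ) (j : ℕ) :
    ((volume : Measure (EuclideanSpace ℝ (Fin n))).toSphere.prod volume.toSphere) (M.bad C j) ≤
    ∫⁻ p, ∫⁻ q, {z : (sphere (0 : EuclideanSpace ℝ (Fin n)) 1 × ℝ) ×
      (sphere (0 : EuclideanSpace ℝ (Fin n)) 1 × ℝ) | M.dist (z.1.2 • (z.1.1 : EuclideanSpace ℝ (Fin n)))
        (z.2.2 • (z.2.1 : EuclideanSpace ℝ (Fin n))) ≤ C + 2}.indicator (fun _ => (1 : ℝ≥0∞)) (p, q)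
        ∂(shell n j) ∂(shell n j) := by
  set Q := {z : (sphere (0 : EuclideanSpace ℝ (Fin n)) 1 × ℝ) ×
      (sphere (0 : EuclideanSpace ℝ (Fin n)) 1 × ℝ) | M.dist (z.1.2 • (z.1.1 : EuclideanSpace ℝ (Fin n)))
        (z.2.2 • (z.2.1 : EuclideanSpace ℝ (Fin n))) ≤ C + 2} with hQ
  have hQm : MeasurableSet Q := by
    refine (isClosed_le ?_ continuous_const).measurableSet
    have h : Continuous fun z : (sphere (0 : EuclideanSpace ℝ (Fin n)) 1 × ℝ) ×
      (sphere (0 : EuclideanSpace ℝ (Fin n)) 1 × ℝ) => (z.1.2 • (z.1.1 : EuclideanSpace ℝ (Fin n)),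
        z.2.2 • (z.2.1 : EuclideanSpace ℝ (Fin n))) := by fun_prop
    exact M.continuous_dist.comp h
  have hIm : Measurable (Q.indicator fun _ => (1 : ℝ≥0∞)) := measurable_const.indicator hQm
  unfold shell
  rw [← quad_swap (volume : Measure (EuclideanSpace ℝ (Fin n))).toSphere
    (volume.restrict (Ioc (j : ℝ) (j + 1))) hIm]
  have hGm : Measurable fun w : sphere (0 : EuclideanSpace ℝ (Fin n)) 1 ×
      sphere (0 : EuclideanSpace ℝ (Fin n)) 1 => ∫⁻ t, Q.indicator (fun _ => (1 : ℝ≥0∞))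
        ((w.1, t.1), (w.2, t.2)) ∂((volume.restrict (Ioc (j : ℝ) (j + 1))).prod
          (volume.restrict (Ioc (j : ℝ) (j + 1)))) := by
    have m1 : Measurable fun z : (sphere (0 : EuclideanSpace ℝ (Fin n)) 1 ×
      sphere (0 : EuclideanSpace ℝ (Fin n)) 1) × (ℝ × ℝ) =>
        Q.indicator (fun _ => (1 : ℝ≥0∞)) ((z.1.1, z.2.1), (z.1.2, z.2.2)) := by fun_prop
    exact m1.lintegral_prod_right'
  refine meas_le_lintegral₀ hGm.aemeasurable fun w hw => ?_
  obtain ⟨t, ht, hd⟩ := hw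
  have hw1 : ‖(w.1 : EuclideanSpace ℝ (Fin n))‖ = 1 := by simp
  have hw2 : ‖(w.2 : EuclideanSpace ℝ (Fin n))‖ = 1 := by simp
  have hmem : ∀ s ∈ Ioc (j : ℝ) (j + 1), ∀ s' ∈ Ioc (j : ℝ) (j + 1),
      (((w.1, s), (w.2, s')) : (sphere (0 : EuclideanSpace ℝ (Fin n)) 1 × ℝ) ×
      (sphere (0 : EuclideanSpace ℝ (Fin n)) 1 × ℝ)) ∈ Q := by
    intro s hs s' hs'
    have a1 := dist_line_le_abs hN hw1 s t
    have a2 := dist_line_le_abs hN hw2 t s'
    have b1 := M.dist_triangle (s • (w.1 : EuclideanSpace ℝ (Fin n)))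
      (t • (w.1 : EuclideanSpace ℝ (Fin n))) (s' • (w.2 : EuclideanSpace ℝ (Fin n)))
    have b2 := M.dist_triangle (t • (w.1 : EuclideanSpace ℝ (Fin n)))
      (t • (w.2 : EuclideanSpace ℝ (Fin n))) (s' • (w.2 : EuclideanSpace ℝ (Fin n)))
    have c1 : |t - s| ≤ 1 := by
      rw [abs_le]; constructor <;> linarith [ht.1, ht.2, hs.1, hs.2]
    have c2 : |s' - t| ≤ 1 := by
      rw [abs_le]; constructor <;> linarith [ht.1, ht.2, hs'.1, hs'.2]
    show M.dist (s • (w.1 : EuclideanSpace ℝ (Fin n))) (s' • (w.2 : EuclideanSpace ℝ (Fin n))) ≤ C + 2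
    linarith
  have hone : ((volume.restrict (Ioc (j : ℝ) (j + 1))).prod
      (volume.restrict (Ioc (j : ℝ) (j + 1)))) univ = 1 := by
    rw [← univ_prod_univ, Measure.prod_prod]
    simp
  calc (1 : ℝ≥0∞) = ∫⁻ _ : ℝ × ℝ, 1 ∂((volume.restrict (Ioc (j : ℝ) (j + 1))).prod
      (volume.restrict (Ioc (j : ℝ) (j + 1)))) := by rw [lintegral_one, hone]
    _ ≤ _ := by
        refine lintegral_mono_ae ?_
        rw [Measure.prod_restrict]
        filter_upwards [ae_restrict_mem (measurableSet_Ioc.prod measurableSet_Ioc)] with z hz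
        rw [indicator_of_mem (hmem z.1 hz.1 z.2 hz.2)]

/-- The measures of the sets of the bad pairs are summable. -/
theorem tsum_bad (hn : 3 ≤ n) (hN : M.Normal) (hm : M.Minimizing)
    (hV : ∀ R : ℝ, ∃ V : ℝ≥0, ∀ x, M.vol {y | M.dist x y ≤ R} ≤ V) (C : ℝ) :
    ∑' j : ℕ, ((volume : Measure (EuclideanSpace ℝ (Fin n))).toSphere.prod volume.toSphere)
      (M.bad C j) ≠ ⊤ := by
  obtain ⟨V, hV⟩ := hV (C + 2)
  obtain ⟨B, hB, hsum⟩ := tsum_fE_le hN hm hn
  set W := (volume : Measure (EuclideanSpace ℝ (Fin n))).toSphere univ with hW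
  have hWf : W ≠ ⊤ := measure_ne_top _ _
  have key : ∀ j : ℕ, ((volume : Measure (EuclideanSpace ℝ (Fin n))).toSphere.prod
      volume.toSphere) (M.bad C j) ≤ 2 * (W + V) * ∫⁻ p, M.fE p ∂(shell n j) := by
    intro j
    refine (bad_le hN C j).trans ?_
    have h := pairs_le (shell n j) (f := M.fE) (ρ := M.rhoE) measurable_fE measurable_rhoE
      (Q := {z : (sphere (0 : EuclideanSpace ℝ (Fin n)) 1 × ℝ) ×
      (sphere (0 : EuclideanSpace ℝ (Fin n)) 1 × ℝ) | M.dist (z.1.2 • (z.1.1 : EuclideanSpace ℝ (Fin n)))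
        (z.2.2 • (z.2.1 : EuclideanSpace ℝ (Fin n))) ≤ C + 2}) ?_ ?_ (V := V) ?_
        (A := {p | 0 < p.2}) ?_ ?_
    · rwa [shell_univ] at h
    · refine (isClosed_le ?_ continuous_const).measurableSet
      have h : Continuous fun z : (sphere (0 : EuclideanSpace ℝ (Fin n)) 1 × ℝ) ×
        (sphere (0 : EuclideanSpace ℝ (Fin n)) 1 × ℝ) => (z.1.2 • (z.1.1 : EuclideanSpace ℝ (Fin n)),
          z.2.2 • (z.2.1 : EuclideanSpace ℝ (Fin n))) := by fun_prop
      exact M.continuous_dist.comp h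
    · intro p q h
      show M.dist (q.2 • (q.1 : EuclideanSpace ℝ (Fin n))) (p.2 • (p.1 : EuclideanSpace ℝ (Fin n))) ≤ C + 2
      rw [M.dist_comm]
      exact h
    · intro p
      refine le_trans (le_of_eq ?_) ((shell_le_vol hn j (p.2 • (p.1 : EuclideanSpace ℝ (Fin n)))
        (C + 2)).trans (hV _))
      rfl
    · unfold shell
      have h1 : {p : sphere (0 : EuclideanSpace ℝ (Fin n)) 1 × ℝ | 0 < p.2}ᶜ = univ ×ˢ Iic 0 := by
        ext p
        simp
      rw [h1, Measure.prod_prod, Measure.restrict_apply measurableSet_Iic]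
      have h2 : Iic (0 : ℝ) ∩ Ioc (j : ℝ) (j + 1) = ∅ := by
        ext s
        simp only [mem_inter_iff, mem_Iic, mem_Ioc, mem_empty_iff_false, iff_false, not_and]
        intro h3 h4
        have : (0 : ℝ) ≤ j := Nat.cast_nonneg j
        linarith
      rw [h2]
      simp
    · intro p hp q hq
      exact one_le_four_E hn hp hq
  rw [tsum_eq_zero_add' ENNReal.summable]
  refine ENNReal.add_ne_top.2 ⟨measure_ne_top _ _, ?_⟩
  refine ne_top_of_le_ne_top (b := 2 * (W + V) * B) ?_ ?_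
  · exact ENNReal.mul_ne_top (ENNReal.mul_ne_top (by simp) (ENNReal.add_ne_top.2
      ⟨hWf, ENNReal.coe_ne_top⟩)) hB
  · calc ∑' j : ℕ, ((volume : Measure (EuclideanSpace ℝ (Fin n))).toSphere.prod
          volume.toSphere) (M.bad C (j + 1))
        ≤ ∑' j : ℕ, 2 * (W + V) * ∫⁻ p, M.fE p ∂(shell n (j + 1)) :=
          ENNReal.tsum_le_tsum fun j => key (j + 1)
      _ = 2 * (W + V) * ∑' j : ℕ, ∫⁻ p, M.fE p ∂(shell n (j + 1)) := ENNReal.tsum_mul_left
      _ ≤ 2 * (W + V) * B := by gcongr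

theorem ae_diverges (hn : 3 ≤ n) (hN : M.Normal) (hm : M.Minimizing)
    (hV : ∀ R : ℝ, ∃ V : ℝ≥0, ∀ x, M.vol {y | M.dist x y ≤ R} ≤ V) :
    ∀ᵐ w ∂((volume : Measure (EuclideanSpace ℝ (Fin n))).toSphere.prod
      (volume : Measure (EuclideanSpace ℝ (Fin n))).toSphere),
      Tendsto (fun t : ℝ => M.dist (t • (w.1 : EuclideanSpace ℝ (Fin n)))
        (t • (w.2 : EuclideanSpace ℝ (Fin n)))) atTop atTop := by
  have h : ∀ C : ℕ, ∀ᵐ w ∂((volume : Measure (EuclideanSpace ℝ (Fin n))).toSphere.prod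
      volume.toSphere), ∀ᶠ j in atTop, w ∉ M.bad (C : ℝ) j := fun C =>
    ae_eventually_notMem (tsum_bad hn hN hm hV C)
  filter_upwards [ae_all_iff.2 h] with w hw
  rw [Filter.tendsto_atTop]
  intro b
  obtain ⟨C, hC⟩ := exists_nat_ge b
  obtain ⟨j₀, hj₀⟩ := eventually_atTop.1 (hw C)
  filter_upwards [eventually_ge_atTop (j₀ : ℝ), eventually_ge_atTop (0 : ℝ)] with t ht ht0
  have h1 : j₀ ≤ ⌊t⌋₊ := Nat.le_floor ht
  have h2 := hj₀ _ h1
  by_contra h3
  push Not at h3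
  exact h2 ⟨t, ⟨Nat.floor_le ht0, (Nat.lt_floor_add_one t).le⟩, h3.le.trans hC⟩

end RMetric

end

end Pool.Agent.Lib.MP_6b187a_gt
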