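import Pool.Agent.Lib.MP_6b187a_gt.Corner

/-!
# The variation of a minimizing line through the origin
-/

set_option autoImplicit false

namespace Pool.Agent.Lib.MP_6b187a_gt

open MeasureTheory Set Filter Topology
open scoped ENNReal NNReal

noncomputable section

namespace RMetric

variable {n : ℕ} {M : RMetric n}

theorem hasDerivAt_tail {χ : ℝ → EuclideanSpace ℝ (Fin n)} (hχ : Continuous χ) (T s : ℝ) :
    HasDerivAt (fun s => ∫ t in s..T, χ t) (-χ s) s :=
  intervalIntegral.integral_hasDerivAt_left (hχ.intervalIntegrable _ _)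
    hχ.stronglyMeasurable.stronglyMeasurableAtFilter hχ.continuousAt

theorem continuous_tail {χ : ℝ → EuclideanSpace ℝ (Fin n)} (hχ : Continuous χ) (T : ℝ) :
    Continuous fun s => ∫ t in s..T, χ t :=
  continuous_iff_continuousAt.2 fun s => (hasDerivAt_tail hχ T s).continuousAt

theorem inner_tail {χ : ℝ → EuclideanSpace ℝ (Fin n)} (hχ : Continuous χ)
    {v : EuclideanSpace ℝ (Fin n)} (hv : ∀ s, inner ℝ v (χ s) = 0) (T s : ℝ) :
    inner ℝ v (∫ t in s..T, χ t) = 0 := by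
  have h := (innerSL ℝ v).intervalIntegral_comp_comm (μ := volume) (a := s) (b := T)
    (hχ.intervalIntegrable _ _)
  simp only [innerSL_apply_apply] at h
  rw [← h]
  simp [hv]

theorem continuous_quad {χ : ℝ → EuclideanSpace ℝ (Fin n)} (hχ : Continuous χ) {X : Type*}
    [TopologicalSpace X] {p : X → EuclideanSpace ℝ (Fin n)} (hp : Continuous p) {s : X → ℝ}
    (hs : Continuous s) :
    Continuous fun x => s x ^ 2 * inner ℝ (M.g (p x) (χ (s x))) (χ (s x)) := by
  have h1 : Continuous fun x => M.g (p x) (χ (s x)) :=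
    (M.continuous_g.comp hp).clm_apply (hχ.comp hs)
  exact (hs.pow 2).mul (h1.inner (hχ.comp hs))

theorem variation_aux (hN : M.Normal) (hm : M.Minimizing) {δ : ℝ}
    (hδ : ∀ v w : EuclideanSpace ℝ (Fin n), ‖v‖ = 1 → ‖w‖ = 1 →
      M.dist (-v) w ≤ 2 - δ * (1 - inner ℝ v w))
    {v : EuclideanSpace ℝ (Fin n)} (hv : ‖v‖ = 1) {T : ℝ} (hT : 1 ≤ T)
    {χ : ℝ → EuclideanSpace ℝ (Fin n)} (hχ : Continuous χ) (hχv : ∀ s, inner ℝ v (χ s) = 0)
    (ε : ℝ) :
    δ * (1 - (√(1 + ε ^ 2 * ‖∫ t in (1 : ℝ)..T, χ t‖ ^ 2))⁻¹) ≤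
      1 / 2 * ε ^ 2 * ∫ s in (1 : ℝ)..T,
        s ^ 2 * inner ℝ (M.g (s • (v + ε • ∫ t in s..T, χ t)) (χ s)) (χ s) := by
  set y : ℝ → EuclideanSpace ℝ (Fin n) := fun s => ∫ t in s..T, χ t with hy
  have hyd : ∀ s, HasDerivAt y (-χ s) s := hasDerivAt_tail hχ T
  have hyc : Continuous y := continuous_tail hχ T
  have hvy : ∀ s, inner ℝ v (y s) = 0 := inner_tail hχ hχv T
  have hyv : ∀ s, inner ℝ (y s) v = 0 := fun s => by rw [real_inner_comm, hvy]
  have hχv' : ∀ s, inner ℝ (χ s) v = 0 := fun s => by rw [real_inner_comm, hχv]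
  have hyT : y T = 0 := by simp [hy]
  set c : ℝ → EuclideanSpace ℝ (Fin n) := fun s => s • (v + ε • y s) with hc
  have hcd : ∀ s, HasDerivAt c ((v + ε • y s) - s • (ε • χ s)) s := by
    intro s
    have h1 : HasDerivAt (fun s => v + ε • y s) (ε • (-χ s)) s := ((hyd s).const_smul ε).const_add v
    have h2 := (hasDerivAt_id s).smul h1
    refine h2.congr_deriv ?_
    simp
    abel
  have hcc : ContDiff ℝ 1 c := by
    rw [contDiff_one_iff_deriv]
    refine ⟨fun s => (hcd s).differentiableAt, ?_⟩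
    have : deriv c = fun s => (v + ε • y s) - s • (ε • χ s) := funext fun s => (hcd s).deriv
    rw [this]
    fun_prop
  -- the speed
  have hq : ∀ s, inner ℝ (M.g (c s) (deriv c s)) (deriv c s) =
      1 + ε ^ 2 * ((‖y s‖ ^ 2 - 2 * s * inner ℝ (y s) (χ s)) +
        s ^ 2 * inner ℝ (M.g (c s) (χ s)) (χ s)) := by
    intro s
    have hz : M.g (c s) (v + ε • y s) = v + ε • y s := hN.smul s _
    have hzz : inner ℝ (v + ε • y s) (v + ε • y s) = 1 + ε ^ 2 * ‖y s‖ ^ 2 := by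
      rw [real_inner_self_eq_norm_sq, norm_add_sq_real, real_inner_smul_right, hvy, norm_smul,
        mul_pow, hv, Real.norm_eq_abs, sq_abs]
      ring
    have hzχ : inner ℝ (v + ε • y s) (χ s) = ε * inner ℝ (y s) (χ s) := by
      simp only [inner_add_left, real_inner_smul_left, hχv]
      ring
    have hχz : inner ℝ (M.g (c s) (χ s)) (v + ε • y s) = ε * inner ℝ (y s) (χ s) := by
      rw [M.symm, hz, real_inner_comm, hzχ]
    rw [(hcd s).deriv, map_sub, hz, map_smul, map_smul, inner_sub_left, inner_sub_right,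
      inner_sub_right, hzz]
    simp only [real_inner_smul_left, real_inner_smul_right, hzχ, hχz]
    ring
  have hsp : ∀ s, M.speed c s ≤ 1 + ε ^ 2 * ((‖y s‖ ^ 2 - 2 * s * inner ℝ (y s) (χ s)) +
        s ^ 2 * inner ℝ (M.g (c s) (χ s)) (χ s)) / 2 := by
    intro s
    unfold speed
    have h1 := M.inner_nonneg (c s) (deriv c s)
    rw [hq] at h1 ⊢
    exact Real.sqrt_one_add_le (by linarith)
  have hcont1 : Continuous fun s => ‖y s‖ ^ 2 - 2 * s * inner ℝ (y s) (χ s) := by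
    have := hyc.inner (𝕜 := ℝ) hχ
    fun_prop
  have hcont2 : Continuous fun s => s ^ 2 * inner ℝ (M.g (c s) (χ s)) (χ s) :=
    continuous_quad hχ (p := c) hcc.continuous continuous_id
  have hcont3 : Continuous (M.speed c) := by
    have h1 : Continuous fun s => (c s, deriv c s) :=
      hcc.continuous.prodMk (hcc.continuous_deriv le_rfl)
    exact M.continuous_form.comp h1
  have hlen : ∫ s in (1 : ℝ)..T, M.speed c s ≤ (T - 1) + 1 / 2 * ε ^ 2 *
      (-‖y 1‖ ^ 2 + ∫ s in (1 : ℝ)..T, s ^ 2 * inner ℝ (M.g (c s) (χ s)) (χ s)) := by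
    have h1 := intervalIntegral.integral_mono_on hT (hcont3.intervalIntegrable (μ := volume) 1 T)
      (Continuous.intervalIntegrable (μ := volume) (u := fun s => 1 + ε ^ 2 * ((‖y s‖ ^ 2 - 2 * s * inner ℝ (y s) (χ s)) +
        s ^ 2 * inner ℝ (M.g (c s) (χ s)) (χ s)) / 2) (by fun_prop) 1 T) fun s _ => hsp s
    refine h1.trans (le_of_eq ?_)
    have h2 : ∫ s in (1 : ℝ)..T, (‖y s‖ ^ 2 - 2 * s * inner ℝ (y s) (χ s)) = -‖y 1‖ ^ 2 := by
      have h3 : ∀ s ∈ uIcc (1 : ℝ) T, HasDerivAt (fun s => s * ‖y s‖ ^ 2)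
          (‖y s‖ ^ 2 - 2 * s * inner ℝ (y s) (χ s)) s := by
        intro s _
        have h4 := (hasDerivAt_id s).mul (hyd s).norm_sq
        refine h4.congr_deriv ?_
        simp only [id, inner_neg_right]
        ring
      rw [intervalIntegral.integral_eq_sub_of_hasDerivAt h3 (hcont1.intervalIntegrable _ _), hyT]
      simp
    have e : ∀ s, 1 + ε ^ 2 * ((‖y s‖ ^ 2 - 2 * s * inner ℝ (y s) (χ s)) +
        s ^ 2 * inner ℝ (M.g (c s) (χ s)) (χ s)) / 2 = 1 + 1 / 2 * ε ^ 2 *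
        ((‖y s‖ ^ 2 - 2 * s * inner ℝ (y s) (χ s)) +
        s ^ 2 * inner ℝ (M.g (c s) (χ s)) (χ s)) := fun s => by ring
    simp only [e]
    rw [← h2, ← intervalIntegral.integral_add (hcont1.intervalIntegrable _ _)
      (hcont2.intervalIntegrable _ _), ← intervalIntegral.integral_const_mul]
    have e1 : (T - 1 : ℝ) = ∫ _ in (1 : ℝ)..T, (1 : ℝ) := by simp
    rw [e1, ← intervalIntegral.integral_add (by simp)
      (Continuous.intervalIntegrable (by fun_prop) _ _)]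
  -- the distances
  have hcT : c T = T • v := by simp [hc, hyT]
  have hc1 : c 1 = v + ε • y 1 := by simp [hc]
  set N : ℝ := √(1 + ε ^ 2 * ‖y 1‖ ^ 2) with hNdef
  have hNsq : N ^ 2 = 1 + ε ^ 2 * ‖y 1‖ ^ 2 := Real.sq_sqrt (by positivity)
  have hN1 : 1 ≤ N := by
    rw [hNdef, Real.one_le_sqrt]
    have : 0 ≤ ε ^ 2 * ‖y 1‖ ^ 2 := by positivity
    linarith
  have hN0 : N ≠ 0 := by positivity
  set ω : EuclideanSpace ℝ (Fin n) := N⁻¹ • (v + ε • y 1) with hω
  have hNω : N • ω = v + ε • y 1 := by rw [hω, smul_smul, mul_inv_cancel₀ hN0, one_smul]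
  have hωn : ‖ω‖ = 1 := by
    have h1 : ‖v + ε • y 1‖ ^ 2 = N ^ 2 := by
      rw [hNsq, norm_add_sq_real, real_inner_smul_right, hvy, norm_smul, mul_pow, hv,
        Real.norm_eq_abs, sq_abs]
      ring
    have h2 : ‖v + ε • y 1‖ = N := by
      have := (sq_eq_sq₀ (norm_nonneg _) (by linarith)).1 h1
      exact this
    rw [hω, norm_smul, h2, norm_inv, Real.norm_of_nonneg (by linarith), inv_mul_cancel₀ hN0]
  have hvω : inner ℝ v ω = N⁻¹ := by
    rw [hω, real_inner_smul_right, inner_add_right, real_inner_smul_right, hvy,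
      real_inner_self_eq_norm_sq, hv]
    simp
  have d1 := hδ v ω hv hωn
  rw [hvω] at d1
  have d2 : M.dist ω (c 1) ≤ N - 1 := by
    have h1 := dist_line_le hN hωn hN1
    rw [one_smul, hNω, ← hc1] at h1
    exact h1
  have d3 := M.dist_le_integral hcc hT
  rw [hcT] at d3
  have d4 : M.dist (-v) (T • v) = 1 + T := by
    have := hm v hv 1 T zero_le_one (by linarith)
    simpa using this
  have t1 := M.dist_triangle (-v) ω (T • v)
  have t2 := M.dist_triangle ω (c 1) (T • v)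
  have hN2 : N - 1 ≤ 1 / 2 * ε ^ 2 * ‖y 1‖ ^ 2 := by nlinarith
  nlinarith

/-- The second variation inequality. -/
theorem variation (hN : M.Normal) (hm : M.Minimizing) {δ : ℝ}
    (hδ : ∀ v w : EuclideanSpace ℝ (Fin n), ‖v‖ = 1 → ‖w‖ = 1 →
      M.dist (-v) w ≤ 2 - δ * (1 - inner ℝ v w))
    {v : EuclideanSpace ℝ (Fin n)} (hv : ‖v‖ = 1) {T : ℝ} (hT : 1 ≤ T)
    {χ : ℝ → EuclideanSpace ℝ (Fin n)} (hχ : Continuous χ) (hχv : ∀ s, inner ℝ v (χ s) = 0) :
    δ * ‖∫ t in (1 : ℝ)..T, χ t‖ ^ 2 ≤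
      ∫ s in (1 : ℝ)..T, s ^ 2 * inner ℝ (M.g (s • v) (χ s)) (χ s) := by
  set w := ∫ t in (1 : ℝ)..T, χ t with hw
  let A : ℝ → ℝ := fun ε => √(1 + ε ^ 2 * ‖w‖ ^ 2)
  let I : ℝ → ℝ := fun ε => ∫ s in (1 : ℝ)..T,
    s ^ 2 * inner ℝ (M.g (s • (v + ε • ∫ t in s..T, χ t)) (χ s)) (χ s)
  have hA1 : ∀ ε, 1 ≤ A ε := fun ε => by
    rw [Real.one_le_sqrt]
    have : 0 ≤ ε ^ 2 * ‖w‖ ^ 2 := by positivity
    linarith
  have hAc : Continuous A := by fun_prop
  have hIc : Continuous I := by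
    refine intervalIntegral.continuous_parametric_intervalIntegral_of_continuous' ?_ 1 T
    have h1 : Continuous fun p : ℝ × ℝ => p.2 • (v + p.1 • ∫ t in p.2..T, χ t) := by
      have := (continuous_tail hχ T).comp continuous_snd (X := ℝ × ℝ)
      exact continuous_snd.smul (continuous_const.add (continuous_fst.smul this))
    exact continuous_quad hχ h1 continuous_snd
  have key : ∀ ε, ε ≠ 0 → δ * (‖w‖ ^ 2 / (A ε * (A ε + 1))) ≤ 1 / 2 * I ε := by
    intro ε hε
    have h1 := variation_aux hN hm hδ hv hT hχ hχv ε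
    have hA0 : A ε ≠ 0 := by have := hA1 ε; positivity
    have hA2 : A ε + 1 ≠ 0 := by have := hA1 ε; positivity
    have h2 : 1 - (A ε)⁻¹ = ε ^ 2 * (‖w‖ ^ 2 / (A ε * (A ε + 1))) := by
      have h3 : A ε ^ 2 = 1 + ε ^ 2 * ‖w‖ ^ 2 := Real.sq_sqrt (by positivity)
      field_simp
      linarith
    change δ * (1 - (A ε)⁻¹) ≤ 1 / 2 * ε ^ 2 * I ε at h1
    rw [h2] at h1
    have h4 : 0 < ε ^ 2 := by positivity
    have h5 : ε ^ 2 * (δ * (‖w‖ ^ 2 / (A ε * (A ε + 1)))) ≤ ε ^ 2 * (1 / 2 * I ε) := by linarith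
    exact le_of_mul_le_mul_left h5 h4
  have hlim1 : Tendsto (fun ε => δ * (‖w‖ ^ 2 / (A ε * (A ε + 1)))) (𝓝[≠] 0)
      (𝓝 (δ * (‖w‖ ^ 2 / 2))) := by
    have h1 : ContinuousAt (fun ε => δ * (‖w‖ ^ 2 / (A ε * (A ε + 1)))) 0 := by
      have h2 : A 0 * (A 0 + 1) ≠ 0 := by
        have := hA1 0
        positivity
      have h3 : Continuous fun ε => A ε * (A ε + 1) := hAc.mul (hAc.add continuous_const)
      exact continuousAt_const.mul (continuousAt_const.div h3.continuousAt h2)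
    have h2 : A 0 = 1 := by simp [A]
    have h3 := h1.tendsto
    simp only [h2] at h3
    norm_num at h3
    exact h3.mono_left nhdsWithin_le_nhds
  have hlim2 : Tendsto (fun ε => 1 / 2 * I ε) (𝓝[≠] 0) (𝓝 (1 / 2 * I 0)) :=
    ((continuous_const.mul hIc).tendsto 0).mono_left nhdsWithin_le_nhds
  have h := le_of_tendsto_of_tendsto hlim1 hlim2
    (by filter_upwards [self_mem_nhdsWithin] with ε hε using key ε hε)
  have hI0 : I 0 = ∫ s in (1 : ℝ)..T, s ^ 2 * inner ℝ (M.g (s • v) (χ s)) (χ s) := by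
    simp [I]
  rw [← hI0]
  linarith

end RMetric

end

end Pool.Agent.Lib.MP_6b187a_gt
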